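import Mathlib

set_option autoImplicit false

open Finset

namespace Pool.Agent.MP_cc6207_co

/-- Sizes of the fourteen vertex classes. -/
def sz : Fin 14 → ℕ := ![1, 7, 7, 1, 1, 3, 96, 1, 3, 96, 92, 67, 27, 66]

/-- Nine groups of classes; two classes are joined when they share a group. -/
def grp : Fin 9 → Finset (Fin 14) :=
  ![{0, 1, 2, 3, 4, 5}, {0, 1, 2, 3, 7, 8}, {0, 1, 2, 3, 4, 7}, {4, 5, 6}, {7, 8, 9},
    {0, 1, 10}, {0, 11}, {2, 12, 13}, {2, 3, 12}]

/-- The relation between classes. -/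
def R (c d : Fin 14) : Prop := ∃ g : Fin 9, c ∈ grp g ∧ d ∈ grp g

instance : DecidableRel R := fun c d => by unfold R; infer_instance

/-- Vertices of the graph. -/
abbrev W : Type := Σ c : Fin 14, Fin (sz c)

lemma R_refl (c : Fin 14) : R c c := by revert c; decide

lemma R_symm {c d : Fin 14} (h : R c d) : R d c := by
  obtain ⟨g, h1, h2⟩ := h; exact ⟨g, h2, h1⟩

/-- The graph: every class is a clique, two classes are completely joined or not at all. -/
def HV : SimpleGraph W where
  Adj a b := a ≠ b ∧ R a.1 b.1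
  symm := ⟨fun _ _ h => ⟨h.1.symm, R_symm h.2⟩⟩
  loopless := ⟨fun _ h => h.1 rfl⟩

instance : DecidableRel HV.Adj := fun a b => by
  change Decidable (a ≠ b ∧ R a.1 b.1); infer_instance

lemma HV_adj (a b : W) : HV.Adj a b ↔ a ≠ b ∧ R a.1 b.1 := Iff.rfl

lemma card_class (P : Fin 14 → Prop) [DecidablePred P] :
    (univ.filter (fun a : W => P a.1)).card = ∑ c, if P c then sz c else 0 := by
  rw [Finset.card_filter, Fintype.sum_sigma]
  refine Finset.sum_congr rfl fun c _ => ?_
  by_cases h : P c <;> simp [h]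

/-- degree sum -/
def ds (c : Fin 14) : ℕ := ∑ e, if R c e then sz e else 0
/-- codegree sum -/
def cs (c d : Fin 14) : ℕ := ∑ e, if R c e ∧ R d e then sz e else 0

lemma num1 : ∀ c d : Fin 14, R c d → (c = d → 2 ≤ sz c) → ¬ (c = 4 ∧ d = 7) → ¬ (c = 7 ∧ d = 4) →
    19 ≤ cs c d ∧ (136 ≤ ds c + cs c d ∨ 136 ≤ ds d + cs c d) := by
  decide +kernel

lemma degH (a : W) : (univ.filter (fun c => HV.Adj a c)).card + 1 = ds a.1 := by
  have h : (univ.filter (fun c : W => R a.1 c.1)) = insert a (univ.filter (fun c => HV.Adj a c)) := by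
    ext c
    simp only [mem_filter, mem_univ, true_and, mem_insert, HV_adj]
    constructor
    · intro hc
      by_cases hca : c = a
      · exact Or.inl hca
      · exact Or.inr ⟨fun h => hca h.symm, hc⟩
    · rintro (rfl | hc)
      · exact R_refl _
      · exact hc.2
  have h2 := card_class (fun c => R a.1 c)
  rw [h, card_insert_of_notMem (by simp)] at h2
  exact h2

lemma codH (a b : W) (hab : HV.Adj a b) :
    (univ.filter (fun c => HV.Adj a c ∧ HV.Adj b c)).card + 2 = cs a.1 b.1 := by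
  have h : (univ.filter (fun c : W => R a.1 c.1 ∧ R b.1 c.1)) =
      insert a (insert b (univ.filter (fun c => HV.Adj a c ∧ HV.Adj b c))) := by
    ext c
    simp only [mem_filter, mem_univ, true_and, mem_insert, HV_adj]
    constructor
    · intro hc
      by_cases hca : c = a
      · exact Or.inl hca
      by_cases hcb : c = b
      · exact Or.inr (Or.inl hcb)
      · exact Or.inr (Or.inr ⟨⟨fun h => hca h.symm, hc.1⟩, ⟨fun h => hcb h.symm, hc.2⟩⟩)
    · rintro (rfl | rfl | hc)
      · exact ⟨R_refl _, R_symm hab.2⟩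
      · exact ⟨hab.2, R_refl _⟩
      · exact ⟨hc.1.2, hc.2.2⟩
  have h2 := card_class (fun c => R a.1 c ∧ R b.1 c)
  rw [h, card_insert_of_notMem (by simp [hab.ne]), card_insert_of_notMem (by simp)] at h2
  exact h2

/-- the special vertices -/
def vx : W := ⟨4, ⟨0, by decide⟩⟩
def vy : W := ⟨7, ⟨0, by decide⟩⟩

lemma class_one (a : W) (c : Fin 14) (h : a.1 = c) (hs : sz c = 1) (b : W) (hb : b.1 = c) : a = b := by
  obtain ⟨a1, a2⟩ := a
  obtain ⟨b1, b2⟩ := b
  simp only at h hb
  subst h; subst hb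
  congr 1
  apply Fin.ext
  have := a2.2; have := b2.2; omega

lemma edge_weight (a b : W) (hab : HV.Adj a b) (h1 : ¬ (a = vx ∧ b = vy)) (h2 : ¬ (a = vy ∧ b = vx)) :
    17 ≤ (univ.filter (fun c => HV.Adj a c ∧ HV.Adj b c)).card ∧
    (133 ≤ (univ.filter (fun c => HV.Adj a c)).card + (univ.filter (fun c => HV.Adj a c ∧ HV.Adj b c)).card ∨
     133 ≤ (univ.filter (fun c => HV.Adj b c)).card + (univ.filter (fun c => HV.Adj a c ∧ HV.Adj b c)).card) := by
  have e1 := degH a
  have e2 := degH b
  have e3 := codH a b hab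
  have := num1 a.1 b.1 hab.2 (by
      intro h
      by_contra hlt
      have hs : sz a.1 = 1 := by
        have := a.2.2; omega
      exact hab.ne (class_one a a.1 rfl hs b h.symm)) (by
      rintro ⟨h3, h4⟩
      exact h1 ⟨class_one a 4 h3 (by decide) vx rfl, class_one b 7 h4 (by decide) vy rfl⟩) (by
      rintro ⟨h3, h4⟩
      exact h2 ⟨class_one a 7 h3 (by decide) vy rfl, class_one b 4 h4 (by decide) vx rfl⟩)
  omega

end Pool.Agent.MP_cc6207_co
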