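import Pool.Agent.Lib.MP_cc6207_co.Final

set_option autoImplicit false

open Finset

namespace Pool.Agent.MP_cc6207_co

variable {V : Type} [Fintype V] [DecidableEq V]

/-- low vertices -/
def Lo (G : SimpleGraph V) [DecidableRel G.Adj] (D : ℕ) : Finset V := univ.filter (fun u => (nb G u).card ≤ D)

/-- twice the cost -/
def c2 (G : SimpleGraph V) [DecidableRel G.Adj] (D : ℕ) (u : V) : ℕ := (nb G u).card + (nb G u \ Lo G D).card

lemma sum_c2 (G : SimpleGraph V) [DecidableRel G.Adj] (D : ℕ) :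
    ∑ u ∈ Lo G D, c2 G D u ≤ ∑ u, (nb G u).card := by
  have h1 : ∑ u, (nb G u).card = ∑ u ∈ Lo G D, (nb G u).card + ∑ u ∈ univ \ Lo G D, (nb G u).card := by
    rw [add_comm, Finset.sum_sdiff (subset_univ _)]
  have h2 : ∑ u ∈ Lo G D, (nb G u \ Lo G D).card ≤ ∑ u ∈ univ \ Lo G D, (nb G u).card := by
    have h3 := Finset.sum_card_bipartiteAbove_eq_sum_card_bipartiteBelow (s := Lo G D) (t := univ \ Lo G D) G.Adj
    have h4 : ∑ u ∈ Lo G D, (nb G u \ Lo G D).card =
        ∑ u ∈ Lo G D, ((univ \ Lo G D).bipartiteAbove G.Adj u).card := by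
      apply Finset.sum_congr rfl
      intro u _
      congr 1
      ext x
      simp only [mem_sdiff, mem_nb, Finset.mem_bipartiteAbove, mem_univ, true_and]
      tauto
    rw [h4, h3]
    apply Finset.sum_le_sum
    intro v _
    apply card_le_card
    intro x hx
    rw [Finset.mem_bipartiteBelow] at hx
    rw [mem_nb]; exact hx.2.symm
  unfold c2
  rw [Finset.sum_add_distrib, h1]
  omega

/-- non far vertices -/
def nf (G : SimpleGraph V) [DecidableRel G.Adj] (D : ℕ) (u : V) : Finset V :=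
  insert u (nb G u ∪ (nb G u ∩ Lo G D).biUnion (nb G))

lemma nf_card (G : SimpleGraph V) [DecidableRel G.Adj] (D : ℕ) (u : V) (hu : u ∈ Lo G D) :
    (nf G D u).card ≤ 1 + D + D * D := by
  have hu1 : (nb G u).card ≤ D := by simpa [Lo] using hu
  have h1 : ((nb G u ∩ Lo G D).biUnion (nb G)).card ≤ D * D := by
    calc ((nb G u ∩ Lo G D).biUnion (nb G)).card ≤ (nb G u ∩ Lo G D).card * D := by
          apply Finset.card_biUnion_le_card_mul
          intro w hw
          have := (mem_inter.mp hw).2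
          simpa [Lo] using this
      _ ≤ D * D := Nat.mul_le_mul_right _ ((card_le_card inter_subset_left).trans hu1)
  have h2 := card_insert_le u (nb G u ∪ (nb G u ∩ Lo G D).biUnion (nb G))
  have h3 := card_union_le (nb G u) ((nb G u ∩ Lo G D).biUnion (nb G))
  unfold nf
  omega

lemma far_dich (G : SimpleGraph V) [DecidableRel G.Adj] (hs : Sat G) (D : ℕ) (u v : V)
    (hf : v ∉ nf G D u) :
    132 ≤ c2 G D u ∨ 132 ≤ c2 G D v ∨
    (LinkXY G u v ∧ univ.filter (fun w => G.Adj u w ∧ G.Adj v w) ⊆ nb G u \ Lo G D ∧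
      univ.filter (fun w => G.Adj u w ∧ G.Adj v w) ⊆ nb G v \ Lo G D) := by
  unfold nf at hf
  simp only [mem_insert, mem_union, mem_biUnion, mem_inter, not_or, not_exists, not_and, mem_nb] at hf
  obtain ⟨h1, h2, h3⟩ := hf
  have hC1 : univ.filter (fun w => G.Adj u w ∧ G.Adj v w) ⊆ nb G u \ Lo G D := by
    intro w hw
    simp only [mem_filter, mem_univ, true_and] at hw
    rw [mem_sdiff, mem_nb]
    exact ⟨hw.1, fun hL => h3 w ⟨hw.1, hL⟩ hw.2.symm⟩
  have hC2 : univ.filter (fun w => G.Adj u w ∧ G.Adj v w) ⊆ nb G v \ Lo G D := by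
    intro w hw
    simp only [mem_filter, mem_univ, true_and] at hw
    rw [mem_sdiff, mem_nb]
    exact ⟨hw.2, fun hL => h3 w ⟨hw.1, hL⟩ hw.2.symm⟩
  have k1 := card_le_card hC1
  have k2 := card_le_card hC2
  rcases dich G hs (fun h => h1 h.symm) h2 with ⟨-, h | h⟩ | h
  · left; unfold c2 nb at *; omega
  · right; left; unfold c2 nb at *; omega
  · right; right; exact ⟨h, hC1, hC2⟩

lemma link_c2 (G : SimpleGraph V) [DecidableRel G.Adj] (D : ℕ) (u v : V) (h : LinkXY G u v)
    (h1 : univ.filter (fun w => G.Adj u w ∧ G.Adj v w) ⊆ nb G u \ Lo G D)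
    (h2 : univ.filter (fun w => G.Adj u w ∧ G.Adj v w) ⊆ nb G v \ Lo G D) :
    131 ≤ c2 G D u ∧ (c2 G D u = 131 → (nb G u \ Lo G D).card = 16 ∧ Cl G (nb G u \ Lo G D) ∧
      (nb G u \ (nb G u \ Lo G D)).card = 99 ∧ Cl G (nb G u \ (nb G u \ Lo G D)) ∧
      (nb G u \ Lo G D) ⊆ nb G v \ Lo G D) := by
  obtain ⟨T, κ, k1, k2, k3, k4, k5, k6, k7⟩ := h
  have hTC : T ⊆ univ.filter (fun w => G.Adj u w ∧ G.Adj v w) := by
    intro t ht; simp only [mem_filter, mem_univ, true_and]; exact k4 t ht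
  have hT1 : T ⊆ nb G u \ Lo G D := hTC.trans h1
  have hκ : κ ⊆ nb G u := fun k hk => (mem_nb _ _ _).mpr (k6 k hk)
  have hT2 : T ⊆ nb G u := hT1.trans sdiff_subset
  have hu : (T ∪ κ).card = 115 := by rw [card_union_of_disjoint k3, k1, k2]
  have hsub : T ∪ κ ⊆ nb G u := union_subset hT2 hκ
  have c1 := card_le_card hT1
  have c3 := card_le_card hsub
  refine ⟨by unfold c2; omega, ?_⟩
  intro he
  unfold c2 at he
  have e1 : T = nb G u \ Lo G D := Finset.eq_of_subset_of_card_le hT1 (by omega)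
  have e2 : T ∪ κ = nb G u := Finset.eq_of_subset_of_card_le hsub (by omega)
  have e3 : nb G u \ T = κ := by
    rw [← e2, Finset.union_sdiff_cancel_left k3]
  rw [← e1, e3]
  exact ⟨k1, k5, k2, k7, hTC.trans h2⟩

theorem structure_thm (G : SimpleGraph V) [DecidableRel G.Adj] (hs : Sat G)
    (hn : 10 ^ 20 ≤ Fintype.card V)
    (hE : 1000 * ∑ u, (nb G u).card ≤ 131001 * Fintype.card V) :
    Fintype.card V % 100 = 16 := by
  classical
  obtain ⟨n, hndef⟩ : ∃ n : ℕ, n = Fintype.card V := ⟨_, rfl⟩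
  rw [← hndef] at hn hE ⊢
  obtain ⟨D, hD⟩ : ∃ D : ℕ, D = 9999999 := ⟨_, rfl⟩
  set L := Lo G D with hL
  set s := ∑ u, (nb G u).card with hsdef
  have hsum := sum_c2 G D
  rw [← hL, ← hsdef] at hsum
  -- high vertices
  have hH : (univ \ L).card * 10000000 ≤ s := by
    calc (univ \ L).card * 10000000 = ∑ u ∈ univ \ L, 10000000 := by rw [Finset.sum_const, smul_eq_mul]
      _ ≤ ∑ u ∈ univ \ L, (nb G u).card := by
          apply Finset.sum_le_sum
          intro u hu
          have h := (mem_sdiff.mp hu).2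
          rw [hL] at h
          simp only [Lo, mem_filter, mem_univ, true_and, not_le] at h
          omega
      _ ≤ s := Finset.sum_le_sum_of_subset (subset_univ _)
  have hHL : (univ \ L).card + L.card = n := by
    rw [Finset.card_sdiff_add_card_eq_card (subset_univ L), Finset.card_univ, hndef]
  obtain ⟨B, hB⟩ : ∃ B : ℕ, B = 1 + D + D * D := ⟨_, rfl⟩
  have hnf : ∀ u ∈ L, (nf G D u).card ≤ B := fun u hu => hB ▸ nf_card G D u hu
  -- vertices of small cost
  set A := L.filter (fun u => c2 G D u < 131) with hA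
  have hAc : A.card ≤ B := by
    rcases A.eq_empty_or_nonempty with h | ⟨u, hu⟩
    · rw [h]; simp
    · have huL : u ∈ L := (mem_filter.mp hu).1
      have hu2 := (mem_filter.mp hu).2
      have : A ⊆ nf G D u := by
        intro v hv
        by_contra hvn
        have hv2 := (mem_filter.mp hv).2
        rcases far_dich G hs D u v hvn with h | h | ⟨h, h1, h2⟩
        · omega
        · omega
        · have := (link_c2 G D u v h h1 h2).1
          omega
      exact (card_le_card this).trans (hnf u huL)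
  set Z := L.filter (fun u => c2 G D u = 131) with hZ
  set P := L.filter (fun u => 132 ≤ c2 G D u) with hP
  have hpart : A.card + Z.card + P.card = L.card := by
    have h1 : L.filter (fun u => ¬ c2 G D u < 131) = Z ∪ P := by
      ext u
      simp only [hZ, hP, mem_filter, mem_union]
      constructor
      · rintro ⟨h, h2⟩
        rcases Nat.lt_or_ge (c2 G D u) 132 with h3 | h3
        · left; exact ⟨h, by omega⟩
        · right; exact ⟨h, h3⟩
      · rintro (⟨h, h2⟩ | ⟨h, h2⟩)
        · exact ⟨h, by omega⟩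
        · exact ⟨h, by omega⟩
    have h2 : Disjoint Z P := by
      rw [Finset.disjoint_left]
      intro u hu1 hu2
      have e1 := (mem_filter.mp hu1).2
      have e2 := (mem_filter.mp hu2).2
      omega
    have h3 : A.card + (L.filter (fun u => ¬ c2 G D u < 131)).card = L.card :=
      Finset.card_filter_add_card_filter_not (s := L) (fun u => c2 G D u < 131)
    rw [h1, card_union_of_disjoint h2] at h3
    omega
  -- sum over L minus Z
  have hZL : Z ⊆ L := filter_subset _ _
  have hsplit : ∑ u ∈ L \ Z, c2 G D u + ∑ u ∈ Z, c2 G D u = ∑ u ∈ L, c2 G D u :=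
    Finset.sum_sdiff hZL
  have hZs : ∑ u ∈ Z, c2 G D u = 131 * Z.card := by
    rw [Finset.sum_congr rfl (fun u hu => (mem_filter.mp hu).2), Finset.sum_const, smul_eq_mul, mul_comm]
  have hPs : 132 * P.card ≤ ∑ u ∈ L \ Z, c2 G D u := by
    calc 132 * P.card = ∑ u ∈ P, 132 := by rw [Finset.sum_const, smul_eq_mul, mul_comm]
      _ ≤ ∑ u ∈ P, c2 G D u := Finset.sum_le_sum (fun u hu => (mem_filter.mp hu).2)
      _ ≤ _ := by
          apply Finset.sum_le_sum_of_subset
          intro u hu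
          rw [mem_sdiff]
          refine ⟨(mem_filter.mp hu).1, fun h => ?_⟩
          have e1 := (mem_filter.mp hu).2
          have e2 := (mem_filter.mp h).2
          omega
  -- numerics
  have hBn : B ≤ 100000000000000 := by rw [hB, hD]; norm_num
  have hn' : 100000000000000000000 ≤ n := by
    have : (10 : ℕ) ^ 20 = 100000000000000000000 := by norm_num
    omega
  have hZbig : 3 * B + 10 ≤ Z.card := by
    clear hn hD hB
    omega
  -- all of Z has the same hub set
  have hZnf : ∀ u ∈ Z, ∀ v ∈ Z, ∃ w ∈ Z, w ∉ nf G D u ∧ w ∉ nf G D v := by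
    intro u hu v hv
    by_contra hh
    push Not at hh
    have : Z ⊆ nf G D u ∪ nf G D v := by
      intro w hw
      rw [mem_union]
      by_cases h : w ∈ nf G D u
      · exact Or.inl h
      · exact Or.inr (hh w hw h)
    have h1 := card_le_card this
    have h2 := card_union_le (nf G D u) (nf G D v)
    have h3 := hnf u (hZL hu)
    have h4 := hnf v (hZL hv)
    omega
  have hfar : ∀ u ∈ Z, ∀ w ∈ Z, w ∉ nf G D u → (nb G u \ L).card = 16 ∧ Cl G (nb G u \ L) ∧
      (nb G u \ (nb G u \ L)).card = 99 ∧ Cl G (nb G u \ (nb G u \ L)) ∧ nb G u \ L ⊆ nb G w \ L := by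
    intro u hu w hw hwn
    have e1 := (mem_filter.mp hu).2
    have e2 := (mem_filter.mp hw).2
    rcases far_dich G hs D u w hwn with h | h | ⟨h, h1, h2⟩
    · omega
    · omega
    · exact (link_c2 G D u w h h1 h2).2 e1
  obtain ⟨u0, hu0⟩ : Z.Nonempty := by rw [← Finset.card_pos]; omega
  set T := nb G u0 \ L with hTdef
  have hsame : ∀ u ∈ Z, nb G u \ L = T := by
    intro u hu
    obtain ⟨w, hw, h1, h2⟩ := hZnf u0 hu0 u hu
    have a1 := hfar u0 hu0 w hw h1
    have a2 := hfar u hu w hw h2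
    obtain ⟨w', hw', h3, h4⟩ := hZnf w hw w hw
    have a3 := hfar w hw w' hw' h3
    have e1 : nb G u0 \ L = nb G w \ L := Finset.eq_of_subset_of_card_le a1.2.2.2.2 (by omega)
    have e2 : nb G u \ L = nb G w \ L := Finset.eq_of_subset_of_card_le a2.2.2.2.2 (by omega)
    rw [hTdef, e1, e2]
  have hgood : ∀ u ∈ Z, u ∉ T ∧ T ⊆ nb G u ∧ T.card = 16 ∧ Cl G T ∧ (nb G u \ T).card = 99 ∧ Cl G (nb G u \ T) ∧
      nb G u \ T ⊆ L := by
    intro u hu
    obtain ⟨w, hw, h1, -⟩ := hZnf u hu u hu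
    have a := hfar u hu w hw h1
    rw [hsame u hu] at a
    refine ⟨?_, ?_, a.1, a.2.1, a.2.2.1, a.2.2.2.1, ?_⟩
    · rw [← hsame u hu, mem_sdiff, mem_nb]
      exact fun h => G.loopless.irrefl u h.1
    · rw [← hsame u hu]; exact sdiff_subset
    · intro x hx
      by_contra hxL
      have hx1 := mem_sdiff.mp hx
      exact hx1.2 (by rw [← hsame u hu, mem_sdiff]; exact ⟨hx1.1, hxL⟩)
  set Ty := Z.filter (fun u => nb G u \ T ⊆ Z) with hTy
  have hTyc : Z.card ≤ Ty.card + ∑ w ∈ L \ Z, c2 G D w := by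
    have h1 : Z \ Ty ⊆ (L \ Z).biUnion (nb G) := by
      intro u hu
      obtain ⟨hu1, hu2⟩ := mem_sdiff.mp hu
      have h3 : ¬ nb G u \ T ⊆ Z := fun h => hu2 (mem_filter.mpr ⟨hu1, h⟩)
      rw [Finset.not_subset] at h3
      obtain ⟨w, hw1, hw2⟩ := h3
      rw [mem_biUnion]
      refine ⟨w, mem_sdiff.mpr ⟨(hgood u hu1).2.2.2.2.2.2 hw1, hw2⟩, ?_⟩
      rw [mem_nb]
      exact ((mem_nb G u w).mp (mem_sdiff.mp hw1).1).symm
    have h2 := card_le_card h1
    have h3 : ((L \ Z).biUnion (nb G)).card ≤ ∑ w ∈ L \ Z, (nb G w).card := Finset.card_biUnion_le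
    have h4 : ∑ w ∈ L \ Z, (nb G w).card ≤ ∑ w ∈ L \ Z, c2 G D w :=
      Finset.sum_le_sum (fun w _ => by unfold c2; omega)
    have h5 : (Z \ Ty).card + Ty.card = Z.card :=
      Finset.card_sdiff_add_card_eq_card (filter_subset _ _)
    omega
  have hTybig : 1000 ≤ Ty.card := by
    clear hn hD hB
    omega
  rw [hndef]
  refine final_part G hs T Ty (hgood u0 hu0).2.2.1 (hgood u0 hu0).2.2.2.1 hTybig ?_
  intro u hu
  obtain ⟨huZ, hu2⟩ := mem_filter.mp hu
  obtain ⟨g1, g2, g3, g4, g5, g6, g7⟩ := hgood u huZ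
  refine ⟨g1, g2, g5, g6, ?_⟩
  intro w hw
  have hwZ : w ∈ Z := hu2 hw
  obtain ⟨p1, p2, p3, p4, p5, p6, p7⟩ := hgood w hwZ
  have hwu : w ≠ u := by
    rintro rfl
    exact G.loopless.irrefl w ((mem_nb G w w).mp (mem_sdiff.mp hw).1)
  have hbc : (bl G T u).card = 100 := by
    unfold bl
    rw [card_insert_of_notMem, g5]
    simp [mem_nb]
  have hwb : w ∈ bl G T u := mem_insert_of_mem hw
  have hsub : (bl G T u).erase w ⊆ nb G w \ T := by
    intro x hx
    rw [mem_erase] at hx
    obtain ⟨hxw, hx⟩ := hx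
    unfold bl at hx
    rw [mem_insert] at hx
    rcases hx with rfl | hx
    · exact mem_sdiff.mpr ⟨(mem_nb _ _ _).mpr ((mem_nb _ _ _).mp (mem_sdiff.mp hw).1).symm, g1⟩
    · exact mem_sdiff.mpr ⟨(mem_nb _ _ _).mpr (g6 w hw x hx (fun h => hxw h.symm)), (mem_sdiff.mp hx).2⟩
  have heq : (bl G T u).erase w = nb G w \ T := by
    apply Finset.eq_of_subset_of_card_le hsub
    rw [card_erase_of_mem hwb, hbc, p5]
  constructor
  · rw [hTy, mem_filter]
    refine ⟨hwZ, ?_⟩
    rw [← heq]
    intro x hx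
    rw [mem_erase] at hx
    obtain ⟨hxw, hx⟩ := hx
    unfold bl at hx
    rw [mem_insert] at hx
    rcases hx with rfl | hx
    · exact huZ
    · exact hu2 hx
  · change insert w (nb G w \ T) = bl G T u
    rw [← heq, Finset.insert_erase hwb]

end Pool.Agent.MP_cc6207_co
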