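import Pool.Agent.Lib.MP_cc6207_co.Core

set_option autoImplicit false

open Finset

namespace Pool.Agent.MP_cc6207_co

variable {V : Type}

/-- G contains a copy of the graph HV. -/
def Copy (G : SimpleGraph V) : Prop :=
  ∃ f : W → V, Function.Injective f ∧ ∀ a b, HV.Adj a b → G.Adj (f a) (f b)

lemma exists_host [DecidableEq V] (hst : Fin 14 → Fin 8) (B : Fin 8 → Finset V)
    (hB : ∀ i j, i ≠ j → Disjoint (B i) (B j))
    (hc : ∀ j, (∑ c, if hst c = j then sz c else 0) ≤ (B j).card) :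
    ∃ f : W → V, Function.Injective f ∧ ∀ a, f a ∈ B (hst a.1) := by
  classical
  have he : ∀ j, Nonempty ({a : W // hst a.1 = j} ↪ {v // v ∈ B j}) := by
    intro j
    apply Function.Embedding.nonempty_of_card_le
    rw [Fintype.card_coe, Fintype.card_subtype]
    have := card_class (fun c => hst c = j)
    rw [this]
    exact hc j
  have e : ∀ j, ({a : W // hst a.1 = j} ↪ {v // v ∈ B j}) := fun j => (he j).some
  refine ⟨fun a => (e (hst a.1) ⟨a, rfl⟩).1, ?_, fun a => (e (hst a.1) ⟨a, rfl⟩).2⟩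
  intro a b hab
  simp only at hab
  by_cases h : hst a.1 = hst b.1
  · have key : ∀ (j : Fin 8) (ha : hst a.1 = j) (hb : hst b.1 = j),
        (e j ⟨a, ha⟩).1 = (e j ⟨b, hb⟩).1 → a = b := by
      intro j ha hb hh
      have := (e j).injective (Subtype.ext hh)
      exact congrArg Subtype.val this
    apply key (hst b.1) h rfl
    rw [← hab]
    have tr : ∀ (j : Fin 8) (ha : hst a.1 = j), (e j ⟨a, ha⟩).1 = (e (hst a.1) ⟨a, rfl⟩).1 := by
      intro j ha; subst ha; rfl
    exact tr _ h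
  · exfalso
    have h1 := (e (hst a.1) ⟨a, rfl⟩).2
    have h2 := (e (hst b.1) ⟨b, rfl⟩).2
    rw [hab] at h1
    exact (Finset.disjoint_left.mp (hB _ _ h) h1) h2

/-- Set is a clique. -/
def Cl (G : SimpleGraph V) (C : Finset V) : Prop := ∀ x ∈ C, ∀ y ∈ C, x ≠ y → G.Adj x y

lemma copy_of_groups [DecidableEq V] (G : SimpleGraph V) (hst : Fin 14 → Fin 8) (B : Fin 8 → Finset V)
    (J : Fin 9 → Finset (Fin 8))
    (hJ : ∀ g, ∀ c ∈ grp g, hst c ∈ J g)
    (hB : ∀ i j, i ≠ j → Disjoint (B i) (B j))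
    (hc : ∀ j, (∑ c, if hst c = j then sz c else 0) ≤ (B j).card)
    (hadj : ∀ g : Fin 9, ∃ C : Finset V, Cl G C ∧ ∀ j ∈ J g, B j ⊆ C) : Copy G := by
  obtain ⟨f, hf, hfm⟩ := exists_host hst B hB hc
  refine ⟨f, hf, ?_⟩
  rintro a b ⟨hab, g, hg1, hg2⟩
  obtain ⟨C, hC, hCB⟩ := hadj g
  exact hC _ (hCB _ (hJ g _ hg1) (hfm a)) _ (hCB _ (hJ g _ hg2) (hfm b)) (fun h => hab (hf h))

lemma cl_union [DecidableEq V] {G : SimpleGraph V} {T C : Finset V}
    (hU : ∀ t ∈ T, ∀ v, v ≠ t → G.Adj t v) (hC : Cl G C) : Cl G (T ∪ C) := by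
  intro x hx y hy hxy
  rw [mem_union] at hx hy
  rcases hx with hx | hx
  · exact hU x hx y hxy.symm
  · rcases hy with hy | hy
    · exact (hU y hy x hxy).symm
    · exact hC x hx y hy hxy

/-- Two disjoint 100-cliques joined by an edge, over a universal 16-clique. -/
lemma kill0 [DecidableEq V] (G : SimpleGraph V) (T K K' : Finset V) (β : Fin 4 → Finset V)
    (hT : T.card = 16) (hU : ∀ t ∈ T, ∀ v, v ≠ t → G.Adj t v)
    (hK : K.card = 100) (hKc : Cl G K) (hK' : K'.card = 100) (hKc' : Cl G K')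
    (hβ : ∀ i, (β i).card = 100) (hβc : ∀ i, Cl G (β i))
    (d1 : Disjoint T K) (d2 : Disjoint T K') (d3 : ∀ i, Disjoint T (β i)) (d4 : ∀ i, Disjoint K (β i))
    (d5 : ∀ i, Disjoint K' (β i)) (d6 : ∀ i j, i ≠ j → Disjoint (β i) (β j))
    (w z : V) (hw : w ∈ K) (hz : z ∈ K') (hwz : G.Adj w z) (d7 : Disjoint K K') :
    Copy G := by
  refine copy_of_groups G ![0, 0, 0, 0, 1, 2, 2, 3, 4, 4, 5, 6, 7, 7]
    ![T, {w}, K.erase w, {z}, K'.erase z, β 0, β 1, β 2]
    ![{0, 1, 2}, {0, 3, 4}, {0, 1, 3}, {1, 2}, {3, 4}, {0, 5}, {0, 6}, {0, 7}, {0, 7}] (by decide) ?_ ?_ ?_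
  · have e01 := d6 0 1 (by decide)
    have e02 := d6 0 2 (by decide)
    have e03 := d6 0 3 (by decide)
    have e12 := d6 1 2 (by decide)
    have e13 := d6 1 3 (by decide)
    have e23 := d6 2 3 (by decide)
    have f0 := d3 0
    have f1 := d3 1
    have f2 := d3 2
    have f3 := d3 3
    have g0 := d4 0
    have g1 := d4 1
    have g2 := d4 2
    have g3 := d4 3
    have h0 := d5 0
    have h1 := d5 1
    have h2 := d5 2
    have h3 := d5 3
    clear d3 d4 d5 d6 hU hKc hKc' hβc hβ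
    rw [Finset.disjoint_left] at *
    intro i j hij
    rw [Finset.disjoint_left]
    intro a
    fin_cases i <;> fin_cases j <;> simp at hij ⊢ <;> grind
  · intro j
    have c0 := hβ 0
    have c1 := hβ 1
    have c2 := hβ 2
    have k1 : (K.erase w).card = 99 := by rw [card_erase_of_mem hw, hK]
    have k2 : (K'.erase z).card = 99 := by rw [card_erase_of_mem hz, hK']
    fin_cases j <;> simp [Fin.sum_univ_succ, sz, hT, k1, k2, c0, c1, c2]
  · have hCwz : Cl G {w, z} := by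
      intro x hx y hy hxy
      simp only [mem_insert, mem_singleton] at hx hy
      rcases hx with rfl | rfl <;> rcases hy with rfl | rfl
      · exact absurd rfl hxy
      · exact hwz
      · exact hwz.symm
      · exact absurd rfl hxy
    intro g
    fin_cases g
    · refine ⟨T ∪ K, cl_union hU hKc, ?_⟩
      intro j hj a ha
      fin_cases j <;> simp at hj ha ⊢ <;> grind
    · refine ⟨T ∪ K', cl_union hU hKc', ?_⟩
      intro j hj a ha
      fin_cases j <;> simp at hj ha ⊢ <;> grind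
    · refine ⟨T ∪ {w, z}, cl_union hU hCwz, ?_⟩
      intro j hj a ha
      fin_cases j <;> simp at hj ha ⊢ <;> grind
    · refine ⟨T ∪ K, cl_union hU hKc, ?_⟩
      intro j hj a ha
      fin_cases j <;> simp at hj ha ⊢ <;> grind
    · refine ⟨T ∪ K', cl_union hU hKc', ?_⟩
      intro j hj a ha
      fin_cases j <;> simp at hj ha ⊢ <;> grind
    · refine ⟨T ∪ β 0, cl_union hU (hβc 0), ?_⟩
      intro j hj a ha
      fin_cases j <;> simp at hj ha ⊢ <;> grind
    · refine ⟨T ∪ β 1, cl_union hU (hβc 1), ?_⟩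
      intro j hj a ha
      fin_cases j <;> simp at hj ha ⊢ <;> grind
    · refine ⟨T ∪ β 2, cl_union hU (hβc 2), ?_⟩
      intro j hj a ha
      fin_cases j <;> simp at hj ha ⊢ <;> grind
    · refine ⟨T ∪ β 2, cl_union hU (hβc 2), ?_⟩
      intro j hj a ha
      fin_cases j <;> simp at hj ha ⊢ <;> grind

/-- Two 100-cliques sharing between 1 and 33 vertices, over a universal 16-clique. -/
lemma kill1 [DecidableEq V] (G : SimpleGraph V) (T K K' : Finset V) (β : Fin 4 → Finset V)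
    (hT : T.card = 16) (hU : ∀ t ∈ T, ∀ v, v ≠ t → G.Adj t v)
    (hK : K.card = 100) (hKc : Cl G K) (hK' : K'.card = 100) (hKc' : Cl G K')
    (hβ : ∀ i, (β i).card = 100) (hβc : ∀ i, Cl G (β i))
    (d1 : Disjoint T K) (d2 : Disjoint T K') (d3 : ∀ i, Disjoint T (β i)) (d4 : ∀ i, Disjoint K (β i))
    (d5 : ∀ i, Disjoint K' (β i)) (d6 : ∀ i j, i ≠ j → Disjoint (β i) (β j))
    (c : V) (hcK : c ∈ K) (hcK' : c ∈ K') (hsh : 67 ≤ (K' \ K).card) :
    Copy G := by
  refine copy_of_groups G ![1, 2, 0, 0, 0, 0, 4, 0, 0, 5, 2, 3, 6, 6]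
    ![T, {c}, K.erase c, K' \ K, β 0, β 1, β 2, β 3]
    ![{0, 1, 2}, {0, 1, 2}, {0, 1, 2}, {0, 4}, {0, 5}, {1, 2}, {1, 3}, {0, 6}, {0, 6}] (by decide) ?_ ?_ ?_
  · have e01 := d6 0 1 (by decide)
    have e02 := d6 0 2 (by decide)
    have e03 := d6 0 3 (by decide)
    have e12 := d6 1 2 (by decide)
    have e13 := d6 1 3 (by decide)
    have e23 := d6 2 3 (by decide)
    have f0 := d3 0
    have f1 := d3 1
    have f2 := d3 2
    have f3 := d3 3
    have g0 := d4 0
    have g1 := d4 1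
    have g2 := d4 2
    have g3 := d4 3
    have h0 := d5 0
    have h1 := d5 1
    have h2 := d5 2
    have h3 := d5 3
    clear d3 d4 d5 d6 hU hKc hKc' hβc hβ
    rw [Finset.disjoint_left] at *
    intro i j hij
    rw [Finset.disjoint_left]
    intro a
    fin_cases i <;> fin_cases j <;> simp at hij ⊢ <;> grind
  · intro j
    have c0 := hβ 0
    have c1 := hβ 1
    have c2 := hβ 2
    have c3 := hβ 3
    have k1 : (K.erase c).card = 99 := by rw [card_erase_of_mem hcK, hK]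
    fin_cases j <;> simp [Fin.sum_univ_succ, sz, hT, k1, hsh, c0, c1, c2, c3]
  · intro g
    fin_cases g
    · refine ⟨T ∪ K, cl_union hU hKc, ?_⟩
      intro j hj a ha
      fin_cases j <;> simp at hj ha ⊢ <;> grind
    · refine ⟨T ∪ K, cl_union hU hKc, ?_⟩
      intro j hj a ha
      fin_cases j <;> simp at hj ha ⊢ <;> grind
    · refine ⟨T ∪ K, cl_union hU hKc, ?_⟩
      intro j hj a ha
      fin_cases j <;> simp at hj ha ⊢ <;> grind
    · refine ⟨T ∪ β 0, cl_union hU (hβc 0), ?_⟩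
      intro j hj a ha
      fin_cases j <;> simp at hj ha ⊢ <;> grind
    · refine ⟨T ∪ β 1, cl_union hU (hβc 1), ?_⟩
      intro j hj a ha
      fin_cases j <;> simp at hj ha ⊢ <;> grind
    · refine ⟨T ∪ K, cl_union hU hKc, ?_⟩
      intro j hj a ha
      fin_cases j <;> simp at hj ha ⊢ <;> grind
    · refine ⟨T ∪ K', cl_union hU hKc', ?_⟩
      intro j hj a ha
      fin_cases j <;> simp at hj ha ⊢ <;> grind
    · refine ⟨T ∪ β 2, cl_union hU (hβc 2), ?_⟩
      intro j hj a ha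
      fin_cases j <;> simp at hj ha ⊢ <;> grind
    · refine ⟨T ∪ β 2, cl_union hU (hβc 2), ?_⟩
      intro j hj a ha
      fin_cases j <;> simp at hj ha ⊢ <;> grind

/-- Two different 100-cliques sharing at least 34 vertices, over a universal 16-clique. -/
lemma kill2 [DecidableEq V] (G : SimpleGraph V) (T K K' : Finset V) (β : Fin 4 → Finset V)
    (hT : T.card = 16) (hU : ∀ t ∈ T, ∀ v, v ≠ t → G.Adj t v)
    (hK : K.card = 100) (hKc : Cl G K) (hK' : K'.card = 100) (hKc' : Cl G K')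
    (hβ : ∀ i, (β i).card = 100) (hβc : ∀ i, Cl G (β i))
    (d1 : Disjoint T K) (d2 : Disjoint T K') (d3 : ∀ i, Disjoint T (β i)) (d4 : ∀ i, Disjoint K (β i))
    (d5 : ∀ i, Disjoint K' (β i)) (d6 : ∀ i j, i ≠ j → Disjoint (β i) (β j))
    (c : V) (hcK : c ∉ K) (hcK' : c ∈ K') (P : Finset V) (hP : P ⊆ K ∩ K') (hPc : P.card = 34) :
    Copy G := by
  have hPK : P ⊆ K := fun a ha => (mem_inter.mp (hP ha)).1
  have hPK' : P ⊆ K' := fun a ha => (mem_inter.mp (hP ha)).2
  refine copy_of_groups G ![0, 0, 1, 3, 0, 0, 4, 0, 0, 5, 6, 7, 1, 2]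
    ![T, P, K \ P, {c}, β 0, β 1, β 2, β 3]
    ![{0, 1, 3}, {0, 1, 3}, {0, 1, 3}, {0, 4}, {0, 5}, {0, 6}, {0, 7}, {1, 2}, {1, 3}] (by decide) ?_ ?_ ?_
  · have e01 := d6 0 1 (by decide)
    have e02 := d6 0 2 (by decide)
    have e03 := d6 0 3 (by decide)
    have e12 := d6 1 2 (by decide)
    have e13 := d6 1 3 (by decide)
    have e23 := d6 2 3 (by decide)
    have f0 := d3 0
    have f1 := d3 1
    have f2 := d3 2
    have f3 := d3 3
    have g0 := d4 0
    have g1 := d4 1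
    have g2 := d4 2
    have g3 := d4 3
    have h0 := d5 0
    have h1 := d5 1
    have h2 := d5 2
    have h3 := d5 3
    clear d3 d4 d5 d6 hU hKc hKc' hβc hβ
    rw [Finset.disjoint_left] at *
    intro i j hij
    rw [Finset.disjoint_left]
    intro a
    fin_cases i <;> fin_cases j <;> simp at hij ⊢ <;> grind
  · intro j
    have c0 := hβ 0
    have c1 := hβ 1
    have c2 := hβ 2
    have c3 := hβ 3
    have k1 : (K \ P).card = 66 := by rw [card_sdiff_of_subset hPK, hK, hPc]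
    fin_cases j <;> simp [Fin.sum_univ_succ, sz, hT, k1, hPc, c0, c1, c2, c3]
  · intro g
    fin_cases g
    · refine ⟨T ∪ K', cl_union hU hKc', ?_⟩
      intro j hj a ha
      fin_cases j <;> simp at hj ha ⊢ <;> grind
    · refine ⟨T ∪ K', cl_union hU hKc', ?_⟩
      intro j hj a ha
      fin_cases j <;> simp at hj ha ⊢ <;> grind
    · refine ⟨T ∪ K', cl_union hU hKc', ?_⟩
      intro j hj a ha
      fin_cases j <;> simp at hj ha ⊢ <;> grind
    · refine ⟨T ∪ β 0, cl_union hU (hβc 0), ?_⟩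
      intro j hj a ha
      fin_cases j <;> simp at hj ha ⊢ <;> grind
    · refine ⟨T ∪ β 1, cl_union hU (hβc 1), ?_⟩
      intro j hj a ha
      fin_cases j <;> simp at hj ha ⊢ <;> grind
    · refine ⟨T ∪ β 2, cl_union hU (hβc 2), ?_⟩
      intro j hj a ha
      fin_cases j <;> simp at hj ha ⊢ <;> grind
    · refine ⟨T ∪ β 3, cl_union hU (hβc 3), ?_⟩
      intro j hj a ha
      fin_cases j <;> simp at hj ha ⊢ <;> grind
    · refine ⟨T ∪ K, cl_union hU hKc, ?_⟩
      intro j hj a ha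
      fin_cases j <;> simp at hj ha ⊢ <;> grind
    · refine ⟨T ∪ K', cl_union hU hKc', ?_⟩
      intro j hj a ha
      fin_cases j <;> simp at hj ha ⊢ <;> grind

end Pool.Agent.MP_cc6207_co
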