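import Pool.Agent.Lib.MP_cc6207_co.Link

set_option autoImplicit false

open Finset

namespace Pool.Agent.MP_cc6207_co

variable {V : Type}

/-- Pads plus the three kill lemmas: two 100-cliques outside T are equal or disjoint and not joined. -/
lemma two_cliques [DecidableEq V] (G : SimpleGraph V) (hnc : ¬ Copy G) (T K K' : Finset V)
    (β : Fin 4 → Finset V)
    (hT : T.card = 16) (hU : ∀ t ∈ T, ∀ v, v ≠ t → G.Adj t v)
    (hK : K.card = 100) (hKc : Cl G K) (hK' : K'.card = 100) (hKc' : Cl G K')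
    (hβ : ∀ i, (β i).card = 100) (hβc : ∀ i, Cl G (β i))
    (d1 : Disjoint T K) (d2 : Disjoint T K') (d3 : ∀ i, Disjoint T (β i)) (d4 : ∀ i, Disjoint K (β i))
    (d5 : ∀ i, Disjoint K' (β i)) (d6 : ∀ i j, i ≠ j → Disjoint (β i) (β j)) :
    K = K' ∨ (Disjoint K K' ∧ ∀ w ∈ K, ∀ z ∈ K', ¬ G.Adj w z) := by
  by_cases hd : Disjoint K K'
  · right
    refine ⟨hd, fun w hw z hz hwz => hnc ?_⟩
    exact kill0 G T K K' β hT hU hK hKc hK' hKc' hβ hβc d1 d2 d3 d4 d5 d6 w z hw hz hwz hd
  · left
    by_contra hne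
    rw [Finset.not_disjoint_iff] at hd
    obtain ⟨c, hc1, hc2⟩ := hd
    have hcard : (K' \ K).card + (K' ∩ K).card = 100 := by
      rw [card_sdiff_add_card_inter, hK']
    by_cases h34 : 34 ≤ (K' ∩ K).card
    · obtain ⟨P, hP, hPc⟩ := Finset.exists_subset_card_eq h34
      have hex : ∃ e ∈ K', e ∉ K := by
        by_contra hh
        push Not at hh
        have : K' ⊆ K := hh
        exact hne (Finset.eq_of_subset_of_card_le this (by omega)).symm
      obtain ⟨e, he1, he2⟩ := hex
      rw [inter_comm] at hP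
      exact hnc (kill2 G T K K' β hT hU hK hKc hK' hKc' hβ hβc d1 d2 d3 d4 d5 d6 e he2 he1 P hP hPc)
    · exact hnc (kill1 G T K K' β hT hU hK hKc hK' hKc' hβ hβc d1 d2 d3 d4 d5 d6 c hc1 hc2 (by omega))

variable [Fintype V] [DecidableEq V]

/-- neighbourhood -/
def nb (G : SimpleGraph V) [DecidableRel G.Adj] (u : V) : Finset V := univ.filter (fun w => G.Adj u w)

lemma mem_nb (G : SimpleGraph V) [DecidableRel G.Adj] (u w : V) : w ∈ nb G u ↔ G.Adj u w := by
  simp [nb]

/-- block of a vertex -/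
def bl (G : SimpleGraph V) [DecidableRel G.Adj] (T : Finset V) (u : V) : Finset V := insert u (nb G u \ T)

theorem final_part (G : SimpleGraph V) [DecidableRel G.Adj] (hs : Sat G) (T Ty : Finset V)
    (hT : T.card = 16) (hTc : Cl G T) (hTy : 1000 ≤ Ty.card)
    (t1 : ∀ u ∈ Ty, u ∉ T ∧ T ⊆ nb G u ∧ (nb G u \ T).card = 99 ∧ Cl G (nb G u \ T) ∧
      ∀ w ∈ nb G u \ T, w ∈ Ty ∧ bl G T w = bl G T u) :
    Fintype.card V % 100 = 16 := by
  classical
  have mb : ∀ u w, w ∈ nb G u ↔ G.Adj u w := mem_nb G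
  -- blocks of typical vertices
  have bcard : ∀ a ∈ Ty, (bl G T a).card = 100 := by
    intro a ha
    obtain ⟨h1, h2, h3, h4, h5⟩ := t1 a ha
    unfold bl
    rw [card_insert_of_notMem, h3]
    simp [mem_nb]
  have bcl : ∀ a ∈ Ty, Cl G (bl G T a) := by
    intro a ha
    obtain ⟨h1, h2, h3, h4, h5⟩ := t1 a ha
    intro x hx y hy hxy
    unfold bl at hx hy
    rw [mem_insert] at hx hy
    rcases hx with rfl | hx
    · rcases hy with rfl | hy
      · exact absurd rfl hxy
      · exact (mb _ _).mp (mem_sdiff.mp hy).1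
    · rcases hy with rfl | hy
      · exact ((mb _ _).mp (mem_sdiff.mp hx).1).symm
      · exact h4 x hx y hy hxy
  have bdis : ∀ a ∈ Ty, Disjoint T (bl G T a) := by
    intro a ha
    obtain ⟨h1, -⟩ := t1 a ha
    rw [Finset.disjoint_left]
    intro x hx hx2
    unfold bl at hx2
    rw [mem_insert] at hx2
    rcases hx2 with rfl | hx2
    · exact h1 hx
    · exact (mem_sdiff.mp hx2).2 hx
  have bself : ∀ a, a ∈ bl G T a := fun a => mem_insert_self _ _
  have bTy : ∀ a ∈ Ty, ∀ x ∈ bl G T a, x ∈ Ty ∧ bl G T x = bl G T a := by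
    intro a ha x hx
    obtain ⟨h1, h2, h3, h4, h5⟩ := t1 a ha
    unfold bl at hx
    rw [mem_insert] at hx
    rcases hx with rfl | hx
    · exact ⟨ha, rfl⟩
    · exact h5 x hx
  -- every vertex outside T
  have Q : ∀ w, w ∉ T → T ⊆ nb G w ∧ ∃ K : Finset V, K.card = 100 ∧ Cl G K ∧ Disjoint T K ∧ w ∈ K := by
    intro w hw
    by_cases hwT : w ∈ Ty
    · exact ⟨(t1 w hwT).2.1, bl G T w, bcard w hwT, bcl w hwT, bdis w hwT, bself w⟩
    · have hne : Ty.Nonempty := by
        rw [← Finset.card_pos]; omega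
      obtain ⟨a, ha⟩ := hne
      have hwa : w ≠ a := fun h => hwT (h ▸ ha)
      have hnadj : ¬ G.Adj w a := by
        intro h
        exact hwT ((bTy a ha w (mem_insert_of_mem (mem_sdiff.mpr ⟨(mb _ _).mpr h.symm, hw⟩))).1)
      have hC : univ.filter (fun x => G.Adj w x ∧ G.Adj a x) ⊆ T := by
        intro x hx
        simp only [mem_filter, mem_univ, true_and] at hx
        by_contra hxT
        have hx1 := (bTy a ha x (mem_insert_of_mem (mem_sdiff.mpr ⟨(mb _ _).mpr hx.2, hxT⟩))).1
        exact hwT ((bTy x hx1 w (mem_insert_of_mem (mem_sdiff.mpr ⟨(mb _ _).mpr hx.1.symm, hw⟩))).1)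
      have hCc := card_le_card hC
      rcases dich G hs hwa hnadj with h | h
      · exfalso; have := h.1; omega
      · obtain ⟨T', κ, k1, k2, k3, k4, k5, k6, k7⟩ := h
        have hT' : T' ⊆ T := by
          intro t ht
          exact hC (by simp only [mem_filter, mem_univ, true_and]; exact k4 t ht)
        have hTT : T' = T := Finset.eq_of_subset_of_card_le hT' (by omega)
        subst hTT
        have hwκ : w ∉ κ := fun h => G.loopless.irrefl w (k6 w h)
        refine ⟨fun t ht => (mb _ _).mpr (k4 t ht).1, insert w κ, ?_, ?_, ?_, mem_insert_self _ _⟩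
        · rw [card_insert_of_notMem hwκ, k2]
        · intro x hx y hy hxy
          rw [mem_insert] at hx hy
          rcases hx with rfl | hx
          · rcases hy with rfl | hy
            · exact absurd rfl hxy
            · exact k6 y hy
          · rcases hy with rfl | hy
            · exact (k6 x hx).symm
            · exact k7 x hx y hy hxy
        · rw [Finset.disjoint_left]
          intro x hx hx2
          rw [mem_insert] at hx2
          rcases hx2 with rfl | hx2
          · exact hw hx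
          · exact Finset.disjoint_left.mp k3 hx hx2
  have hU : ∀ t ∈ T, ∀ v, v ≠ t → G.Adj t v := by
    intro t ht v hv
    by_cases hvT : v ∈ T
    · exact hTc t ht v hvT hv.symm
    · exact ((mb _ _).mp ((Q v hvT).1 ht)).symm
  have Bl : ∀ K : Finset V, K.card = 100 → Cl G K → Disjoint T K → ∀ a ∈ Ty,
      ¬ Disjoint (bl G T a) K → K = bl G T a := by
    intro K hK hKc hKT a ha hnd
    rw [Finset.not_disjoint_iff] at hnd
    obtain ⟨x, hx1, hx2⟩ := hnd
    obtain ⟨hx3, hx4⟩ := bTy a ha x hx1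
    rw [← hx4]
    apply Finset.eq_of_subset_of_card_le
    · intro y hy
      by_cases hyx : y = x
      · rw [hyx]; exact bself x
      · exact mem_insert_of_mem (mem_sdiff.mpr ⟨(mb _ _).mpr (hKc x hx2 y hy (fun h => hyx h.symm)),
          fun h => Finset.disjoint_left.mp hKT h hy⟩)
    · rw [bcard x hx3, hK]
  have pick : ∀ F : Finset V, F.card ≤ 999 → ∃ a ∈ Ty, a ∉ F := by
    intro F hF
    by_contra hh
    push Not at hh
    have := card_le_card (show Ty ⊆ F from hh)
    omega
  have TC : ∀ K K' : Finset V, K.card = 100 → Cl G K → Disjoint T K → K'.card = 100 → Cl G K' →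
      Disjoint T K' → K = K' ∨ (Disjoint K K' ∧ ∀ w ∈ K, ∀ z ∈ K', ¬ G.Adj w z) := by
    intro K K' hK hKc hKT hK' hKc' hKT'
    have cK : (K ∪ K').card ≤ 200 := (card_union_le _ _).trans (by omega)
    obtain ⟨a0, ha0, hb0⟩ := pick (K ∪ K') (by omega)
    have c0 := card_union_le (K ∪ K') (bl G T a0)
    rw [bcard a0 ha0] at c0
    obtain ⟨a1, ha1, hb1⟩ := pick (K ∪ K' ∪ bl G T a0) (by omega)
    have c1 := card_union_le (K ∪ K' ∪ bl G T a0) (bl G T a1)
    rw [bcard a1 ha1] at c1
    obtain ⟨a2, ha2, hb2⟩ := pick (K ∪ K' ∪ bl G T a0 ∪ bl G T a1) (by omega)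
    have c2 := card_union_le (K ∪ K' ∪ bl G T a0 ∪ bl G T a1) (bl G T a2)
    rw [bcard a2 ha2] at c2
    obtain ⟨a3, ha3, hb3⟩ := pick (K ∪ K' ∪ bl G T a0 ∪ bl G T a1 ∪ bl G T a2) (by omega)
    simp only [mem_union, not_or] at hb0 hb1 hb2 hb3
    have disK : ∀ C : Finset V, C.card = 100 → Cl G C → Disjoint T C → ∀ a ∈ Ty, a ∉ C →
        Disjoint C (bl G T a) := by
      intro C hC1 hC2 hC3 a ha haC
      by_contra hnd
      have := Bl C hC1 hC2 hC3 a ha (fun h => hnd h.symm)
      exact haC (this ▸ bself a)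
    have hmem : ∀ i : Fin 4, (![a0, a1, a2, a3] : Fin 4 → V) i ∈ Ty := by
      intro i; fin_cases i
      · exact ha0
      · exact ha1
      · exact ha2
      · exact ha3
    refine two_cliques G hs.1 T K K' (fun i => bl G T ((![a0, a1, a2, a3] : Fin 4 → V) i)) hT hU hK hKc
      hK' hKc' (fun i => bcard _ (hmem i)) (fun i => bcl _ (hmem i)) hKT hKT' (fun i => bdis _ (hmem i)) ?_ ?_ ?_
    · intro i
      apply disK K hK hKc hKT _ (hmem i)
      fin_cases i
      · exact hb0.1
      · exact hb1.1.1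
      · exact hb2.1.1.1
      · exact hb3.1.1.1.1
    · intro i
      apply disK K' hK' hKc' hKT' _ (hmem i)
      fin_cases i
      · exact hb0.2
      · exact hb1.1.2
      · exact hb2.1.1.2
      · exact hb3.1.1.1.2
    · have dd : ∀ a ∈ Ty, ∀ b ∈ Ty, b ∉ bl G T a → Disjoint (bl G T a) (bl G T b) := by
        intro a ha b hb hab
        exact disK _ (bcard a ha) (bcl a ha) (bdis a ha) b hb hab
      intro i j hij
      fin_cases i <;> fin_cases j <;> simp at hij ⊢
      · exact dd a0 ha0 a1 ha1 hb1.2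
      · exact dd a0 ha0 a2 ha2 hb2.1.2
      · exact dd a0 ha0 a3 ha3 hb3.1.1.2
      · exact (dd a0 ha0 a1 ha1 hb1.2).symm
      · exact dd a1 ha1 a2 ha2 hb2.2
      · exact dd a1 ha1 a3 ha3 hb3.1.2
      · exact (dd a0 ha0 a2 ha2 hb2.1.2).symm
      · exact (dd a1 ha1 a2 ha2 hb2.2).symm
      · exact dd a2 ha2 a3 ha3 hb3.2
      · exact (dd a0 ha0 a3 ha3 hb3.1.1.2).symm
      · exact (dd a1 ha1 a3 ha3 hb3.1.2).symm
      · exact (dd a2 ha2 a3 ha3 hb3.2).symm
  -- the clique of w is its block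
  have E : ∀ w, w ∉ T → ∀ K : Finset V, K.card = 100 → Cl G K → Disjoint T K → w ∈ K → K = bl G T w := by
    intro w hw K hK hKc hKT hwK
    apply Finset.Subset.antisymm
    · intro y hy
      by_cases hyw : y = w
      · rw [hyw]; exact bself w
      · exact mem_insert_of_mem (mem_sdiff.mpr ⟨(mb _ _).mpr (hKc w hwK y hy (fun h => hyw h.symm)),
          fun h => Finset.disjoint_left.mp hKT h hy⟩)
    · intro y hy
      unfold bl at hy
      rw [mem_insert] at hy
      rcases hy with rfl | hy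
      · exact hwK
      · obtain ⟨hy1, hy2⟩ := mem_sdiff.mp hy
        obtain ⟨-, K', hK', hKc', hKT', hyK'⟩ := Q y hy2
        rcases TC K K' hK hKc hKT hK' hKc' hKT' with h | ⟨h1, h2⟩
        · rw [h]; exact hyK'
        · exact absurd ((mb _ _).mp hy1) (h2 w hwK y hyK')
  have F1 : ∀ w, w ∉ T → (bl G T w).card = 100 ∧ Cl G (bl G T w) ∧ Disjoint T (bl G T w) := by
    intro w hw
    obtain ⟨-, K, hK, hKc, hKT, hwK⟩ := Q w hw
    rw [← E w hw K hK hKc hKT hwK]
    exact ⟨hK, hKc, hKT⟩
  have hcount : (univ \ T).card = ∑ b ∈ (univ \ T).image (bl G T), 100 := by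
    rw [Finset.card_eq_sum_card_image (bl G T) (univ \ T)]
    apply Finset.sum_congr rfl
    intro b hb
    rw [mem_image] at hb
    obtain ⟨w, hw, rfl⟩ := hb
    have hwT : w ∉ T := (mem_sdiff.mp hw).2
    obtain ⟨f1, f2, f3⟩ := F1 w hwT
    rw [← f1]
    congr 1
    ext x
    simp only [mem_filter, mem_sdiff, mem_univ, true_and]
    constructor
    · rintro ⟨h1, h2⟩
      rw [← h2]; exact bself x
    · intro hx
      have hxT : x ∉ T := fun h => Finset.disjoint_left.mp f3 h hx
      exact ⟨hxT, (E x hxT _ f1 f2 f3 hx).symm⟩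
  have hc2 : (univ \ T).card + T.card = Fintype.card V := by
    rw [Finset.card_sdiff_add_card_eq_card (subset_univ T), Finset.card_univ]
  rw [Finset.sum_const, smul_eq_mul] at hcount
  omega

end Pool.Agent.MP_cc6207_co
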