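import Pool.Agent.Lib.MP_cc6207_co.Embed

set_option autoImplicit false

open Finset

namespace Pool.Agent.MP_cc6207_co

/-- all vertices with class in a set -/
def cls (P : Finset (Fin 14)) : Finset W := univ.filter (fun a : W => a.1 ∈ P)

lemma mem_cls (P : Finset (Fin 14)) (a : W) : a ∈ cls P ↔ a.1 ∈ P := by simp [cls]

lemma card_cls (P : Finset (Fin 14)) : (cls P).card = ∑ c, if c ∈ P then sz c else 0 :=
  card_class (fun c => c ∈ P)

lemma adj_or_eq {a b : W} (h : R a.1 b.1) : a = b ∨ HV.Adj a b := by
  by_cases hab : a = b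
  · exact Or.inl hab
  · exact Or.inr ⟨hab, h⟩

lemma D1 : ∀ c ∈ ({4, 5, 6} : Finset (Fin 14)), ∀ d ∈ ({4, 5, 6} : Finset (Fin 14)), R c d := by decide +kernel
lemma D2 : ∀ c ∈ ({7, 8, 9} : Finset (Fin 14)), ∀ d ∈ ({7, 8, 9} : Finset (Fin 14)), R c d := by decide +kernel
lemma D3 : ∀ c ∈ ({0, 1} : Finset (Fin 14)), ∀ d ∈ ({10} : Finset (Fin 14)), R c d := by decide +kernel
lemma D4 : ∀ c ∈ ({12, 13} : Finset (Fin 14)), ∀ d ∈ ({12, 13} : Finset (Fin 14)), R c d := by decide +kernel
lemma D5 : ∀ c ∈ ({2} : Finset (Fin 14)), ∀ d ∈ ({12, 13} : Finset (Fin 14)), R c d := by decide +kernel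
lemma D6 : ∀ c ∈ ({0, 1, 2, 3} : Finset (Fin 14)), ∀ d ∈ ({4, 5, 7, 8} : Finset (Fin 14)), R c d := by decide +kernel
lemma D7 : ∀ c ∈ ({0, 1} : Finset (Fin 14)), ∀ d ∈ ({2, 3} : Finset (Fin 14)), R c d := by decide +kernel
lemma D8 : ∀ d ∈ ({2, 3, 12, 13} : Finset (Fin 14)), R 2 d := by decide +kernel
lemma D9 : ∀ d ∈ ({0, 1, 10, 11} : Finset (Fin 14)), R 0 d := by decide +kernel

lemma free_aux (F : Finset W) (hF : F.card ≤ 16) (col : W → ℕ)
    (h1 : ∀ a b, a ∉ F → b ∉ F → HV.Adj a b → col a = col b)
    (h2 : ∀ S : Finset W, (∀ a ∈ S, a ∉ F) → ∀ k, (∀ a ∈ S, col a = k) → S.card ≤ 100) : False := by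
  have h1' : ∀ a b : W, a ∉ F → b ∉ F → R a.1 b.1 → col a = col b := by
    intro a b ha hb hab
    rcases adj_or_eq hab with h | h
    · rw [h]
    · exact h1 a b ha hb h
  have big : ∀ (P : Finset (Fin 14)) (k : ℕ), (∀ a ∈ cls P, a ∉ F → col a = k) →
      (cls P).card ≤ 116 := by
    intro P k hk
    have e1 := h2 (cls P \ F) (fun a ha => (mem_sdiff.mp ha).2) k
      (fun a ha => hk a (mem_sdiff.mp ha).1 (mem_sdiff.mp ha).2)
    have e2 : (cls P).card ≤ (cls P \ F).card + F.card := by
      have := Finset.card_sdiff_add_card_inter (cls P) F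
      have h3 := card_le_card (inter_subset_right : cls P ∩ F ⊆ F)
      omega
    omega
  -- x or y in F
  have A : vx ∈ F ∨ vy ∈ F := by
    by_contra hh
    push Not at hh
    have := big {4, 5, 6, 7, 8, 9} (col vx) (by
      intro a ha haF
      rw [mem_cls] at ha
      by_cases h : a.1 ∈ ({4, 5, 6} : Finset (Fin 14))
      · exact h1' a vx haF hh.1 (D1 _ h 4 (by decide))
      · have h' : a.1 ∈ ({7, 8, 9} : Finset (Fin 14)) := by
          simp only [mem_insert, mem_singleton] at ha h ⊢
          tauto
        rw [h1' a vy haF hh.2 (D2 _ h' 7 (by decide))]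
        exact h1' vy vx hh.2 hh.1 (by change R 7 4; decide))
    rw [card_cls] at this
    revert this; decide +kernel
  have colK1 : ∀ a : W, a.1 ∈ ({0, 1} : Finset (Fin 14)) → a ∉ F → ∀ k ∈ cls {10}, k ∉ F → col k = col a := by
    intro a ha haF k hk hkF
    rw [mem_cls] at hk
    exact (h1' a k haF hkF (D3 _ ha _ hk)).symm
  have colK3 : ∀ a : W, a.1 ∈ ({2, 3} : Finset (Fin 14)) → a ∉ F → ∀ k ∈ cls {12, 13}, k ∉ F → col k = col a := by
    intro a ha haF k hk hkF
    rw [mem_cls] at hk
    by_cases h2' : a.1 = 2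
    · exact (h1' a k haF hkF (D5 _ (by rw [h2']; decide) _ hk)).symm
    · have h3 : a.1 = 3 := by
        simp only [mem_insert, mem_singleton] at ha; tauto
      have hex : ∃ w ∈ cls {12}, w ∉ F := by
        by_contra hh
        push Not at hh
        have := card_le_card (show cls {12} ⊆ F from hh)
        have h27 : (cls {12}).card = 27 := by rw [card_cls]; decide +kernel
        omega
      obtain ⟨w, hw, hwF⟩ := hex
      rw [mem_cls] at hw
      have hw12 : w.1 = 12 := by simpa using hw
      have e1 := h1' a w haF hwF (by rw [h3, hw12]; decide)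
      have e2 := h1' w k hwF hkF (D4 _ (by rw [hw12]; decide) _ hk)
      rw [e1, e2]
  by_cases hsp : ∃ a : W, a.1 ∈ ({0, 1, 2, 3} : Finset (Fin 14)) ∧ a ∉ F
  · obtain ⟨a, ha, haF⟩ := hsp
    -- Z is contained in F
    have hZ : cls {4, 5, 7, 8} ⊆ F := by
      intro z hz
      by_contra hzF
      rw [mem_cls] at hz
      have haz : col z = col a := (h1' a z haF hzF (D6 _ ha _ hz)).symm
      have hside : ∀ (P : Finset (Fin 14)), (∀ b ∈ cls P, b ∉ F → col b = col a) → 100 ≤ (cls P).card →
          Disjoint P {10} → Disjoint P {12, 13} → False := by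
        intro P hP hPc hd1 hd2
        by_cases hau : a.1 ∈ ({0, 1} : Finset (Fin 14))
        · have h := big (P ∪ {10}) (col a) (by
            intro b hb hbF
            rw [mem_cls, mem_union] at hb
            rcases hb with hb | hb
            · exact hP b ((mem_cls _ _).mpr hb) hbF
            · exact colK1 a hau haF b ((mem_cls _ _).mpr hb) hbF)
          have hu : cls (P ∪ {10}) = cls P ∪ cls {10} := by
            ext x; simp only [mem_cls, mem_union]
          have hdis : Disjoint (cls P) (cls {10}) := by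
            rw [Finset.disjoint_left] at hd1 ⊢
            intro x hx hx2
            rw [mem_cls] at hx hx2
            exact hd1 hx hx2
          have hc : (cls {10}).card = 92 := by rw [card_cls]; decide +kernel
          rw [hu, card_union_of_disjoint hdis] at h
          omega
        · have hav : a.1 ∈ ({2, 3} : Finset (Fin 14)) := by
            simp only [mem_insert, mem_singleton] at ha hau ⊢; tauto
          have h := big (P ∪ {12, 13}) (col a) (by
            intro b hb hbF
            rw [mem_cls, mem_union] at hb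
            rcases hb with hb | hb
            · exact hP b ((mem_cls _ _).mpr hb) hbF
            · exact colK3 a hav haF b ((mem_cls _ _).mpr hb) hbF)
          have hu : cls (P ∪ {12, 13}) = cls P ∪ cls {12, 13} := by
            ext x; simp only [mem_cls, mem_union]
          have hdis : Disjoint (cls P) (cls {12, 13}) := by
            rw [Finset.disjoint_left] at hd2 ⊢
            intro x hx hx2
            rw [mem_cls] at hx hx2
            exact hd2 hx hx2
          have hc : (cls {12, 13}).card = 93 := by rw [card_cls]; decide +kernel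
          rw [hu, card_union_of_disjoint hdis] at h
          omega
      by_cases hz4 : z.1 ∈ ({4, 5, 6} : Finset (Fin 14))
      · refine hside {4, 5, 6} ?_ (by rw [card_cls]; decide +kernel) (by decide) (by decide)
        intro b hb hbF
        rw [mem_cls] at hb
        rw [← haz]
        exact h1' b z hbF hzF (D1 _ hb _ hz4)
      · have hz7 : z.1 ∈ ({7, 8, 9} : Finset (Fin 14)) := by
          simp only [mem_insert, mem_singleton] at hz hz4 ⊢; tauto
        refine hside {7, 8, 9} ?_ (by rw [card_cls]; decide +kernel) (by decide) (by decide)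
        intro b hb hbF
        rw [mem_cls] at hb
        rw [← haz]
        exact h1' b z hbF hzF (D2 _ hb _ hz7)
    -- one of the groups is inside F
    have hor : cls {0, 1} ⊆ F ∨ cls {2, 3} ⊆ F := by
      by_contra hh
      push Not at hh
      obtain ⟨g1, g2⟩ := hh
      rw [Finset.not_subset] at g1 g2
      obtain ⟨u, hu, huF⟩ := g1
      obtain ⟨v, hv, hvF⟩ := g2
      rw [mem_cls] at hu hv
      have huv := h1' u v huF hvF (D7 _ hu _ hv)
      have h := big {10, 12, 13} (col u) (by
        intro b hb hbF
        rw [mem_cls] at hb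
        by_cases h10 : b.1 ∈ ({10} : Finset (Fin 14))
        · exact colK1 u hu huF b ((mem_cls _ _).mpr h10) hbF
        · rw [huv]
          refine colK3 v hv hvF b ((mem_cls _ _).mpr ?_) hbF
          simp only [mem_insert, mem_singleton] at hb h10 ⊢; tauto)
      rw [card_cls] at h
      revert h; decide +kernel
    have fin : ∀ (P Q : Finset (Fin 14)) (r : W), cls P ⊆ F → Disjoint P {4, 5, 7, 8} → (cls P).card = 8 →
        Disjoint Q P → Disjoint Q {4, 5, 7, 8} → r.1 ∈ Q → (∀ d ∈ Q, R r.1 d) → 101 ≤ (cls Q).card → False := by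
      intro P Q r hP hd hPc hQP hQZ hr hQ hQc
      have hu : (cls P ∪ cls {4, 5, 7, 8}).card = 16 := by
        rw [card_union_of_disjoint, hPc, card_cls]
        · decide +kernel
        · rw [Finset.disjoint_left] at hd ⊢
          intro x hx hx2
          rw [mem_cls] at hx hx2
          exact hd hx hx2
      have hFeq : cls P ∪ cls {4, 5, 7, 8} = F :=
        Finset.eq_of_subset_of_card_le (union_subset hP hZ) (by omega)
      have hout : ∀ b ∈ cls Q, b ∉ F := by
        intro b hb hbF
        rw [← hFeq, mem_union, mem_cls, mem_cls] at hbF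
        rw [mem_cls] at hb
        rcases hbF with h | h
        · exact Finset.disjoint_left.mp hQP hb h
        · exact Finset.disjoint_left.mp hQZ hb h
      have := h2 (cls Q) hout (col r) (by
        intro b hb
        have hb' := hb
        rw [mem_cls] at hb'
        exact (h1' r b (hout r ((mem_cls _ _).mpr hr)) (hout b hb) (hQ _ hb')).symm)
      omega
    rcases hor with h | h
    · exact fin {0, 1} {2, 3, 12, 13} ⟨2, ⟨0, by decide⟩⟩ h (by decide) (by rw [card_cls]; decide +kernel)
        (by decide) (by decide) (by change (2 : Fin 14) ∈ _; decide) D8 (by rw [card_cls]; decide +kernel)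
    · exact fin {2, 3} {0, 1, 10, 11} ⟨0, ⟨0, by decide⟩⟩ h (by decide) (by rw [card_cls]; decide +kernel)
        (by decide) (by decide) (by change (0 : Fin 14) ∈ _; decide) D9 (by rw [card_cls]; decide +kernel)
  · push Not at hsp
    have hS : cls {0, 1, 2, 3} ⊆ F := fun a ha => hsp a ((mem_cls _ _).mp ha)
    have hc : (cls {0, 1, 2, 3}).card = 16 := by rw [card_cls]; decide +kernel
    have hFeq : cls {0, 1, 2, 3} = F := Finset.eq_of_subset_of_card_le hS (by omega)
    rw [← hFeq, mem_cls, mem_cls] at A
    revert A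
    change ¬ ((4 : Fin 14) ∈ _ ∨ (7 : Fin 14) ∈ _)
    decide

lemma not_copy {V : Type} [Fintype V] [DecidableEq V] (G : SimpleGraph V) (T : Finset V) (hT : T.card ≤ 16)
    (col : V → ℕ) (h1 : ∀ u v, u ∉ T → v ∉ T → G.Adj u v → col u = col v)
    (h2 : ∀ k, (univ.filter (fun v => v ∉ T ∧ col v = k)).card ≤ 100) : ¬ Copy G := by
  rintro ⟨f, hf, hfa⟩
  refine free_aux (univ.filter (fun a => f a ∈ T)) ?_ (fun a => col (f a)) ?_ ?_
  · rw [← card_image_of_injective _ hf]
    refine (card_le_card ?_).trans hT
    intro x hx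
    simp only [mem_image, mem_filter, mem_univ, true_and] at hx
    obtain ⟨a, ha, rfl⟩ := hx
    exact ha
  · intro a b ha hb hab
    simp only [mem_filter, mem_univ, true_and] at ha hb
    exact h1 _ _ ha hb (hfa a b hab)
  · intro S hS k hk
    rw [← card_image_of_injective _ hf]
    refine (card_le_card ?_).trans (h2 k)
    intro x hx
    simp only [mem_image, mem_filter, mem_univ, true_and] at hx ⊢
    obtain ⟨a, ha, rfl⟩ := hx
    have := hS a ha
    simp only [mem_filter, mem_univ, true_and] at this
    exact ⟨this, hk a ha⟩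

end Pool.Agent.MP_cc6207_co
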