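import Pool.Agent.Lib.MP_cc6207_co.Embed

set_option autoImplicit false

open Finset

namespace Pool.Agent.MP_cc6207_co

variable {V : Type}

/-- G is saturated for HV. -/
def Sat (G : SimpleGraph V) : Prop :=
  ¬ Copy G ∧ ∀ u v, u ≠ v → ¬ G.Adj u v → ∃ f : W → V, Function.Injective f ∧
    ∀ a b, HV.Adj a b → (G.Adj (f a) (f b) ∨ (f a = u ∧ f b = v) ∨ (f a = v ∧ f b = u))

lemma link {G : SimpleGraph V} (hs : Sat G) {u v : V} (huv : u ≠ v) (hn : ¬ G.Adj u v) :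
    ∃ f : W → V, Function.Injective f ∧ ∃ a b, HV.Adj a b ∧ f a = u ∧ f b = v ∧
      ∀ c d, HV.Adj c d → ¬ (c = a ∧ d = b) → ¬ (c = b ∧ d = a) → G.Adj (f c) (f d) := by
  obtain ⟨f, hf, h⟩ := hs.2 u v huv hn
  have hnc : ¬ ∀ a b, HV.Adj a b → G.Adj (f a) (f b) := fun hh => hs.1 ⟨f, hf, hh⟩
  push Not at hnc
  obtain ⟨a, b, hab, hG⟩ := hnc
  have hcases := h a b hab
  rcases hcases with h1 | ⟨h1, h2⟩ | ⟨h1, h2⟩
  · exact absurd h1 hG
  · refine ⟨f, hf, a, b, hab, h1, h2, ?_⟩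
    intro c d hcd n1 n2
    rcases h c d hcd with h3 | ⟨h3, h4⟩ | ⟨h3, h4⟩
    · exact h3
    · exact absurd ⟨hf (h3.trans h1.symm), hf (h4.trans h2.symm)⟩ n1
    · exact absurd ⟨hf (h3.trans h2.symm), hf (h4.trans h1.symm)⟩ n2
  · refine ⟨f, hf, b, a, hab.symm, h2, h1, ?_⟩
    intro c d hcd n1 n2
    rcases h c d hcd with h3 | ⟨h3, h4⟩ | ⟨h3, h4⟩
    · exact h3
    · exact absurd ⟨hf (h3.trans h2.symm), hf (h4.trans h1.symm)⟩ n1
    · exact absurd ⟨hf (h3.trans h1.symm), hf (h4.trans h2.symm)⟩ n2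

/-- Special link: common 16-clique and a 99-clique of neighbours. -/
def LinkXY (G : SimpleGraph V) (u v : V) : Prop :=
  ∃ T κ : Finset V, T.card = 16 ∧ κ.card = 99 ∧ Disjoint T κ ∧
    (∀ t ∈ T, G.Adj u t ∧ G.Adj v t) ∧ Cl G T ∧ (∀ k ∈ κ, G.Adj u k) ∧ Cl G κ

lemma card_image_class [DecidableEq V] (f : W → V) (hf : Function.Injective f)
    (P : Fin 14 → Prop) [DecidablePred P] :
    ((univ.filter (fun a : W => P a.1)).image f).card = ∑ c, if P c then sz c else 0 := by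
  rw [card_image_of_injective _ hf, card_class]

lemma RS : ∀ c : Fin 14, (c = 0 ∨ c = 1 ∨ c = 2 ∨ c = 3) → R 4 c ∧ R 7 c := by decide +kernel

lemma RSS : ∀ c d : Fin 14, (c = 0 ∨ c = 1 ∨ c = 2 ∨ c = 3) → (d = 0 ∨ d = 1 ∨ d = 2 ∨ d = 3) →
    R c d := by decide +kernel

lemma RX1 : ∀ c : Fin 14, (c = 5 ∨ c = 6) →
    R 4 c ∧ c ≠ 4 ∧ c ≠ 7 ∧ c ≠ 0 ∧ c ≠ 1 ∧ c ≠ 2 ∧ c ≠ 3 := by decide +kernel

lemma RX2 : ∀ c d : Fin 14, (c = 5 ∨ c = 6) → (d = 5 ∨ d = 6) → R c d := by decide +kernel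

lemma RY1 : ∀ c : Fin 14, (c = 8 ∨ c = 9) →
    R 7 c ∧ c ≠ 7 ∧ c ≠ 4 ∧ c ≠ 0 ∧ c ≠ 1 ∧ c ≠ 2 ∧ c ≠ 3 := by decide +kernel

lemma RY2 : ∀ c d : Fin 14, (c = 8 ∨ c = 9) → (d = 8 ∨ d = 9) → R c d := by decide +kernel

lemma linkXY_aux [DecidableEq V] {G : SimpleGraph V} {u v : V} (f : W → V) (hf : Function.Injective f)
    (a b : W) (hab : HV.Adj a b) (h1 : f a = u) (h2 : f b = v)
    (h : ∀ c d, HV.Adj c d → ¬ (c = a ∧ d = b) → ¬ (c = b ∧ d = a) → G.Adj (f c) (f d))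
    (hx : (a = vx ∧ b = vy) ∨ (a = vy ∧ b = vx)) : LinkXY G u v := by
  have hS : ∀ c : W, (c.1 = 0 ∨ c.1 = 1 ∨ c.1 = 2 ∨ c.1 = 3) → c ≠ a ∧ c ≠ b ∧ HV.Adj a c ∧ HV.Adj b c := by
    intro c hc
    have hca : c ≠ a := by
      rintro rfl
      rcases hx with ⟨rfl, -⟩ | ⟨rfl, -⟩
      · exact absurd hc (by change ¬ ((4 : Fin 14) = 0 ∨ (4 : Fin 14) = 1 ∨ (4 : Fin 14) = 2 ∨ (4 : Fin 14) = 3); decide)
      · exact absurd hc (by change ¬ ((7 : Fin 14) = 0 ∨ (7 : Fin 14) = 1 ∨ (7 : Fin 14) = 2 ∨ (7 : Fin 14) = 3); decide)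
    have hcb : c ≠ b := by
      rintro rfl
      rcases hx with ⟨-, rfl⟩ | ⟨-, rfl⟩
      · exact absurd hc (by change ¬ ((7 : Fin 14) = 0 ∨ (7 : Fin 14) = 1 ∨ (7 : Fin 14) = 2 ∨ (7 : Fin 14) = 3); decide)
      · exact absurd hc (by change ¬ ((4 : Fin 14) = 0 ∨ (4 : Fin 14) = 1 ∨ (4 : Fin 14) = 2 ∨ (4 : Fin 14) = 3); decide)
    refine ⟨hca, hcb, ⟨hca.symm, ?_⟩, ⟨hcb.symm, ?_⟩⟩
    · rcases hx with ⟨rfl, -⟩ | ⟨rfl, -⟩
      · exact (RS c.1 hc).1
      · exact (RS c.1 hc).2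
    · rcases hx with ⟨-, rfl⟩ | ⟨-, rfl⟩
      · exact (RS c.1 hc).2
      · exact (RS c.1 hc).1
  have hSS : ∀ c d : W, c ≠ d → (c.1 = 0 ∨ c.1 = 1 ∨ c.1 = 2 ∨ c.1 = 3) →
      (d.1 = 0 ∨ d.1 = 1 ∨ d.1 = 2 ∨ d.1 = 3) → G.Adj (f c) (f d) := by
    intro c d hcd hc hd
    exact h c d ⟨hcd, RSS c.1 d.1 hc hd⟩ (fun hh => (hS c hc).1 hh.1) (fun hh => (hS c hc).2.1 hh.1)
  have main : ∀ (X : Fin 14 → Prop) [DecidablePred X], (∀ c, X c → R a.1 c ∧ c ≠ a.1 ∧ c ≠ b.1 ∧ c ≠ 0 ∧ c ≠ 1 ∧ c ≠ 2 ∧ c ≠ 3) →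
      (∀ c d, X c → X d → R c d) → (∑ c, if X c then sz c else 0) = 99 → LinkXY G u v := by
    intro X _ hX1 hX2 hX3
    refine ⟨(univ.filter (fun c : W => c.1 = 0 ∨ c.1 = 1 ∨ c.1 = 2 ∨ c.1 = 3)).image f,
      (univ.filter (fun c : W => X c.1)).image f, ?_, ?_, ?_, ?_, ?_, ?_, ?_⟩
    · rw [card_image_class f hf (fun c => c = 0 ∨ c = 1 ∨ c = 2 ∨ c = 3)]; decide +kernel
    · rw [card_image_class f hf X]; exact hX3
    · rw [Finset.disjoint_left]
      intro w hw1 hw2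
      simp only [mem_image, mem_filter, mem_univ, true_and] at hw1 hw2
      obtain ⟨c, hc, rfl⟩ := hw1
      obtain ⟨d, hd, hdc⟩ := hw2
      have hh := hf hdc
      rw [hh] at hd
      obtain ⟨-, -, -, r0, r1, r2, r3⟩ := hX1 _ hd
      rcases hc with q | q | q | q
      · exact r0 q
      · exact r1 q
      · exact r2 q
      · exact r3 q
    · intro t ht
      simp only [mem_image, mem_filter, mem_univ, true_and] at ht
      obtain ⟨c, hc, rfl⟩ := ht
      obtain ⟨q1, q2, q3, q4⟩ := hS c hc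
      constructor
      · rw [← h1]; exact h a c q3 (fun hh => q2 hh.2) (fun hh => q1 hh.2)
      · rw [← h2]; exact h b c q4 (fun hh => q2 hh.2) (fun hh => q1 hh.2)
    · intro s hs t ht hst
      simp only [mem_image, mem_filter, mem_univ, true_and] at hs ht
      obtain ⟨c, hc, rfl⟩ := hs
      obtain ⟨d, hd, rfl⟩ := ht
      exact hSS c d (fun hh => hst (by rw [hh])) hc hd
    · intro k hk
      simp only [mem_image, mem_filter, mem_univ, true_and] at hk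
      obtain ⟨c, hc, rfl⟩ := hk
      obtain ⟨r1, r2, r3, -⟩ := hX1 _ hc
      have n1 : c ≠ a := fun hh => r2 (by rw [hh])
      have n2 : c ≠ b := fun hh => r3 (by rw [hh])
      rw [← h1]
      exact h a c ⟨n1.symm, r1⟩ (fun hh => n2 hh.2) (fun hh => n1 hh.2)
    · intro s hs t ht hst
      simp only [mem_image, mem_filter, mem_univ, true_and] at hs ht
      obtain ⟨c, hc, rfl⟩ := hs
      obtain ⟨d, hd, rfl⟩ := ht
      obtain ⟨-, r2, r3, -⟩ := hX1 _ hc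
      have n1 : c ≠ a := fun hh => r2 (by rw [hh])
      have n2 : c ≠ b := fun hh => r3 (by rw [hh])
      exact h c d ⟨fun hh => hst (by rw [hh]), hX2 _ _ hc hd⟩ (fun hh => n1 hh.1) (fun hh => n2 hh.1)
  rcases hx with ⟨rfl, rfl⟩ | ⟨rfl, rfl⟩
  · exact main (fun c => c = 5 ∨ c = 6) RX1 RX2 (by decide +kernel)
  · exact main (fun c => c = 8 ∨ c = 9) RY1 RY2 (by decide +kernel)

/-- Main dichotomy for nonadjacent vertices of a saturated graph. -/
lemma dich [Fintype V] [DecidableEq V] (G : SimpleGraph V) [DecidableRel G.Adj] (hs : Sat G) {u v : V}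
    (huv : u ≠ v) (hn : ¬ G.Adj u v) :
    (17 ≤ (univ.filter (fun w => G.Adj u w ∧ G.Adj v w)).card ∧
      (132 ≤ (univ.filter (fun w => G.Adj u w)).card + (univ.filter (fun w => G.Adj u w ∧ G.Adj v w)).card ∨
       132 ≤ (univ.filter (fun w => G.Adj v w)).card + (univ.filter (fun w => G.Adj u w ∧ G.Adj v w)).card))
    ∨ LinkXY G u v := by
  obtain ⟨f, hf, a, b, hab, h1, h2, h⟩ := link hs huv hn
  by_cases hx : (a = vx ∧ b = vy) ∨ (a = vy ∧ b = vx)
  · right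
    exact linkXY_aux f hf a b hab h1 h2 h hx
  · left
    push Not at hx
    have hw := edge_weight a b hab (fun hh => hx.1 hh.1 hh.2) (fun hh => hx.2 hh.1 hh.2)
    have c1 : (univ.filter (fun c => HV.Adj a c ∧ HV.Adj b c)).card ≤
        (univ.filter (fun w => G.Adj u w ∧ G.Adj v w)).card := by
      rw [← card_image_of_injective _ hf]
      apply card_le_card
      intro w hw
      simp only [mem_image, mem_filter, mem_univ, true_and] at hw ⊢
      obtain ⟨c, ⟨q1, q2⟩, rfl⟩ := hw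
      have n1 : c ≠ a := q1.ne'
      have n2 : c ≠ b := q2.ne'
      constructor
      · rw [← h1]; exact h a c q1 (fun hh => n2 hh.2) (fun hh => n1 hh.2)
      · rw [← h2]; exact h b c q2 (fun hh => n2 hh.2) (fun hh => n1 hh.2)
    have c2 : (univ.filter (fun c => HV.Adj a c)).card ≤ (univ.filter (fun w => G.Adj u w)).card + 1 := by
      have : ((univ.filter (fun c => HV.Adj a c)).erase b).card ≤ (univ.filter (fun w => G.Adj u w)).card := by
        rw [← card_image_of_injective _ hf]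
        apply card_le_card
        intro w hw
        simp only [mem_image, mem_filter, mem_univ, true_and, mem_erase] at hw ⊢
        obtain ⟨c, ⟨n2, q1⟩, rfl⟩ := hw
        have n1 : c ≠ a := q1.ne'
        rw [← h1]; exact h a c q1 (fun hh => n2 hh.2) (fun hh => n1 hh.2)
      have h3 := card_erase_of_mem (s := univ.filter (fun c => HV.Adj a c)) (a := b) (by simp [hab])
      omega
    have c3 : (univ.filter (fun c => HV.Adj b c)).card ≤ (univ.filter (fun w => G.Adj v w)).card + 1 := by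
      have : ((univ.filter (fun c => HV.Adj b c)).erase a).card ≤ (univ.filter (fun w => G.Adj v w)).card := by
        rw [← card_image_of_injective _ hf]
        apply card_le_card
        intro w hw
        simp only [mem_image, mem_filter, mem_univ, true_and, mem_erase] at hw ⊢
        obtain ⟨c, ⟨n2, q1⟩, rfl⟩ := hw
        have n1 : c ≠ b := q1.ne'
        rw [← h2]; exact h b c q1 (fun hh => n1 hh.2) (fun hh => n2 hh.2)
      have h3 := card_erase_of_mem (s := univ.filter (fun c => HV.Adj b c)) (a := a) (by simp [hab.symm])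
      omega
    omega

end Pool.Agent.MP_cc6207_co
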