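import Pool.Agent.Lib.MP_cc6207_co.Upper

set_option autoImplicit false

open Finset Filter

namespace Pool.Agent.MP_cc6207_co

lemma two_edges {V : Type} [Fintype V] (G : SimpleGraph V) [DecidableRel G.Adj] :
    ∑ u, (nb G u).card = 2 * G.edgeSet.ncard := by
  classical
  have h := G.sum_degrees_eq_twice_card_edges
  have h2 : G.edgeSet.ncard = G.edgeFinset.card := by
    rw [← SimpleGraph.coe_edgeFinset, Set.ncard_coe_finset]
  rw [h2, ← h]
  apply Finset.sum_congr rfl
  intro u _
  rw [← SimpleGraph.card_neighborFinset_eq_degree]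
  congr 1
  ext w
  simp [mem_nb]

theorem no_limit (s : ℕ → ℕ) (ha : ∀ n, 616 ≤ n → n % 100 = 16 → 2 * s n ≤ 131 * n)
    (hb : ∀ n, 10 ^ 20 ≤ n → n % 100 = 17 → 131001 * n < 1000 * (2 * s n)) :
    ¬ ∃ L : ℝ, Tendsto (fun n : ℕ => (s n : ℝ) / (n : ℝ)) atTop (nhds L) := by
  rintro ⟨L, hL⟩
  have t1 : Tendsto (fun k : ℕ => 100 * k + 16) atTop atTop :=
    tendsto_atTop_mono (fun k => by simp only [id]; omega) tendsto_id
  have t2 : Tendsto (fun k : ℕ => 100 * k + 17) atTop atTop :=
    tendsto_atTop_mono (fun k => by simp only [id]; omega) tendsto_id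
  have l1 := hL.comp t1
  have l2 := hL.comp t2
  have b1 : L ≤ 131 / 2 := by
    apply le_of_tendsto l1
    filter_upwards [eventually_ge_atTop 6] with k hk
    have h := ha (100 * k + 16) (by omega) (by omega)
    have h' : (2 : ℝ) * (s (100 * k + 16) : ℝ) ≤ 131 * ((100 * k + 16 : ℕ) : ℝ) := by exact_mod_cast h
    have hpos : (0 : ℝ) < ((100 * k + 16 : ℕ) : ℝ) := by exact_mod_cast (by omega)
    simp only [Function.comp]
    rw [div_le_iff₀ hpos]
    linarith
  have b2 : (131001 : ℝ) / 2000 ≤ L := by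
    apply ge_of_tendsto l2
    filter_upwards [eventually_ge_atTop (10 ^ 20)] with k hk
    have h := hb (100 * k + 17) (by omega) (by omega)
    have h' : (131001 : ℝ) * ((100 * k + 17 : ℕ) : ℝ) < 1000 * (2 * (s (100 * k + 17) : ℝ)) := by
      exact_mod_cast h
    have hpos : (0 : ℝ) < ((100 * k + 17 : ℕ) : ℝ) := by exact_mod_cast (by omega)
    simp only [Function.comp]
    rw [le_div_iff₀ hpos]
    linarith
  linarith [b1.trans' b2, show (131 : ℝ) / 2 < 131001 / 2000 by norm_num]

theorem limit_fail (X : ∀ n : ℕ, SimpleGraph (Fin n) → Prop) (hX : ∀ n G, X n G → Sat G)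
    (hex : ∀ n, 616 ≤ n → ∃ G : SimpleGraph (Fin n), X n G ∧ G0 n ≤ G) :
    ¬ ∃ L : ℝ, Tendsto (fun n : ℕ =>
      ((sInf {k : ℕ | ∃ G : SimpleGraph (Fin n), X n G ∧ G.edgeSet.ncard = k} : ℕ) : ℝ) / (n : ℝ))
      atTop (nhds L) := by
  classical
  apply no_limit
  · intro n hn hmod
    obtain ⟨G, hG, hG0⟩ := hex n hn
    have h1 : sInf {k : ℕ | ∃ G : SimpleGraph (Fin n), X n G ∧ G.edgeSet.ncard = k} ≤ G.edgeSet.ncard :=
      Nat.sInf_le ⟨G, hG, rfl⟩
    have h2 := deg_sum G hG0 (hX n G hG).1 hn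
    rw [two_edges] at h2
    have h3 : (n - 16) % 100 = 0 := by omega
    rw [h3] at h2
    omega
  · intro n hn hmod
    have hne : {k : ℕ | ∃ G : SimpleGraph (Fin n), X n G ∧ G.edgeSet.ncard = k}.Nonempty := by
      obtain ⟨G, hG, -⟩ := hex n (by omega)
      exact ⟨_, G, hG, rfl⟩
    obtain ⟨G, hG, hk⟩ := Nat.sInf_mem hne
    rw [← hk]
    by_contra hcon
    push Not at hcon
    have h2 := structure_thm G (hX n G hG) (by rw [Fintype.card_fin]; exact hn)
      (by rw [two_edges, Fintype.card_fin]; exact hcon)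
    rw [Fintype.card_fin] at h2
    omega

/-- no two distinct vertices with the same neighbourhood -/
def TwinFree {V : Type} (G : SimpleGraph V) : Prop :=
  ∀ u v : V, u ≠ v → G.neighborSet u ≠ G.neighborSet v

lemma twin_aux {n : ℕ} (G : SimpleGraph (Fin n)) (hG : G0 n ≤ G) (hc : ¬ Copy G) (hn : 616 ≤ n)
    (u v : Fin n) (huT : u ∉ T0 n) (hvT : v ∉ T0 n)
    (hb : (u.val - 16) / 100 ≠ (v.val - 16) / 100)
    (hfu : 16 + 100 * ((u.val - 16) / 100 + 1) ≤ n) (huv : ∀ w, G.Adj u w → G.Adj v w) : False := by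
  set k := (u.val - 16) / 100 with hk
  simp only [T0, mem_filter, mem_univ, true_and] at huT hvT
  have huB : u ∈ Bk n k := by
    simp only [Bk, mem_filter, mem_univ, true_and]; exact ⟨by omega, hk.symm⟩
  have hvB : v ∉ Bk n k := by
    simp only [Bk, mem_filter, mem_univ, true_and]; intro h; exact hb h.2.symm
  have hKc := Bk_cl G hG k
  have hKcard := Bk_card n k hfu
  have hadj : ∀ w ∈ (Bk n k).erase u, G.Adj v w := by
    intro w hw
    rw [mem_erase] at hw
    exact huv w (hKc u huB w hw.2 hw.1.symm)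
  by_cases hfv : 16 + 100 * ((v.val - 16) / 100 + 1) ≤ n
  · have hne : ((Bk n k).erase u).Nonempty := by
      rw [← Finset.card_pos, card_erase_of_mem huB]; omega
    obtain ⟨w, hw⟩ := hne
    exact no_cross G hG hc hn k ((v.val - 16) / 100) hb hfu hfv w v (mem_of_mem_erase hw)
      (by simp only [Bk, mem_filter, mem_univ, true_and]; exact ⟨by omega, trivial⟩) (hadj w hw).symm
  · obtain ⟨p, hp1, hp2⟩ := pads_exist k ((v.val - 16) / 100)
    have hvE : v ∉ (Bk n k).erase u := fun h => hvB (mem_of_mem_erase h)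
    have hK'card : (insert v ((Bk n k).erase u)).card = 100 := by
      rw [card_insert_of_notMem hvE, card_erase_of_mem huB, hKcard]
    have hK'c : Cl G (insert v ((Bk n k).erase u)) := by
      intro x hx y hy hxy
      rw [mem_insert] at hx hy
      rcases hx with rfl | hx
      · rcases hy with rfl | hy
        · exact absurd rfl hxy
        · exact hadj y hy
      · rcases hy with rfl | hy
        · exact (hadj x hx).symm
        · exact hKc x (mem_of_mem_erase hx) y (mem_of_mem_erase hy) hxy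
    have h34 : 34 ≤ ((Bk n k).erase u).card := by rw [card_erase_of_mem huB]; omega
    obtain ⟨P, hP, hPc⟩ := Finset.exists_subset_card_eq h34
    have hpad : ∀ i, Disjoint (insert v ((Bk n k).erase u)) (Bk n (p i)) := by
      intro i
      rw [Finset.disjoint_left]
      intro x hx hx2
      rw [mem_insert] at hx
      rcases hx with rfl | hx
      · simp only [Bk, mem_filter, mem_univ, true_and] at hx2
        exact (hp2 i).2.2 hx2.2.symm
      · exact Finset.disjoint_left.mp (Bk_Bk (hp2 i).2.1.symm) (mem_of_mem_erase hx) hx2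
    have hTK' : Disjoint (T0 n) (insert v ((Bk n k).erase u)) := by
      rw [Finset.disjoint_left]
      intro x hx hx2
      rw [mem_insert] at hx2
      rcases hx2 with rfl | hx2
      · simp only [T0, mem_filter, mem_univ, true_and] at hx
        exact hvT hx
      · exact Finset.disjoint_left.mp (T0_Bk k) hx (mem_of_mem_erase hx2)
    apply hc
    exact kill2 G (T0 n) (Bk n k) (insert v ((Bk n k).erase u)) (fun i => Bk n (p i)) (T0_card n (by omega))
      (T0_univ G hG) hKcard hKc hK'card hK'c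
      (fun i => Bk_card n _ (by have := (hp2 i).1; omega)) (fun i => Bk_cl G hG _) (T0_Bk k) hTK'
      (fun i => T0_Bk _) (fun i => Bk_Bk (hp2 i).2.1.symm) hpad
      (fun i j hij => Bk_Bk (hp1 i j hij)) v hvB (mem_insert_self _ _) P
      (fun x hx => mem_inter.mpr ⟨mem_of_mem_erase (hP hx), mem_insert_of_mem (hP hx)⟩) hPc

lemma twin_free {n : ℕ} (G : SimpleGraph (Fin n)) (hG : G0 n ≤ G) (hc : ¬ Copy G) (hn : 616 ≤ n) :
    TwinFree G := by
  intro u v huv hN
  have hw : ∀ w, G.Adj u w ↔ G.Adj v w := by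
    intro w
    have : w ∈ G.neighborSet u ↔ w ∈ G.neighborSet v := by rw [hN]
    simpa using this
  have hnadj : ¬ G.Adj u v := fun h => G.loopless.irrefl v ((hw v).mp h)
  have huT : u ∉ T0 n := fun h => hnadj (T0_univ G hG u h v huv.symm)
  have hvT : v ∉ T0 n := fun h => hnadj (T0_univ G hG v h u huv).symm
  have hu16 : 16 ≤ u.val := by
    simp only [T0, mem_filter, mem_univ, true_and] at huT; omega
  have hv16 : 16 ≤ v.val := by
    simp only [T0, mem_filter, mem_univ, true_and] at hvT; omega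
  have hb : (u.val - 16) / 100 ≠ (v.val - 16) / 100 := by
    intro h
    apply hnadj
    apply Bk_cl G hG ((u.val - 16) / 100) u _ v _ huv
    · simp only [Bk, mem_filter, mem_univ, true_and]; exact ⟨hu16, trivial⟩
    · simp only [Bk, mem_filter, mem_univ, true_and]; exact ⟨hv16, h.symm⟩
  by_cases hfu : 16 + 100 * ((u.val - 16) / 100 + 1) ≤ n
  · exact twin_aux G hG hc hn u v huT hvT hb hfu (fun w h => (hw w).mp h)
  · have hfv : 16 + 100 * ((v.val - 16) / 100 + 1) ≤ n := by
      have := u.2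
      have := v.2
      omega
    exact twin_aux G hG hc hn v u hvT huT hb.symm hfv (fun w h => (hw w).mpr h)

/-- transport to Fin -/
noncomputable def eW : W ≃ Fin (Fintype.card W) := Fintype.equivFin W

/-- the graph on Fin -/
noncomputable def HF : SimpleGraph (Fin (Fintype.card W)) := HV.comap eW.symm

lemma copy_iff {n : ℕ} (G : SimpleGraph (Fin n)) :
    (∃ f : Fin (Fintype.card W) → Fin n, Function.Injective f ∧
      ∀ a b : Fin (Fintype.card W), HF.Adj a b → G.Adj (f a) (f b)) ↔ Copy G := by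
  constructor
  · rintro ⟨f, hf, h⟩
    refine ⟨fun a => f (eW a), hf.comp eW.injective, fun a b hab => h _ _ ?_⟩
    simpa [HF] using hab
  · rintro ⟨f, hf, h⟩
    refine ⟨fun a => f (eW.symm a), hf.comp eW.symm.injective, fun a b hab => h _ _ ?_⟩
    simpa [HF] using hab

lemma sat_iff {n : ℕ} (G : SimpleGraph (Fin n)) :
    ((¬ ∃ f : Fin (Fintype.card W) → Fin n, Function.Injective f ∧
        ∀ a b : Fin (Fintype.card W), HF.Adj a b → G.Adj (f a) (f b)) ∧
      (∀ u v : Fin n, u ≠ v → ¬ G.Adj u v →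
        ∃ f : Fin (Fintype.card W) → Fin n, Function.Injective f ∧
          ∀ a b : Fin (Fintype.card W), HF.Adj a b →
            (G.Adj (f a) (f b) ∨ (f a = u ∧ f b = v) ∨ (f a = v ∧ f b = u)))) ↔ Sat G := by
  rw [copy_iff]
  constructor
  · rintro ⟨h1, h2⟩
    refine ⟨h1, fun u v huv hn => ?_⟩
    obtain ⟨f, hf, h⟩ := h2 u v huv hn
    refine ⟨fun a => f (eW a), hf.comp eW.injective, fun a b hab => h _ _ ?_⟩
    simpa [HF] using hab
  · rintro ⟨h1, h2⟩
    refine ⟨h1, fun u v huv hn => ?_⟩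
    obtain ⟨f, hf, h⟩ := h2 u v huv hn
    refine ⟨fun a => f (eW.symm a), hf.comp eW.symm.injective, fun a b hab => h _ _ ?_⟩
    simpa [HF] using hab

lemma HF_nonempty : HF.edgeSet.Nonempty := by
  refine ⟨s(eW vx, eW vy), ?_⟩
  rw [SimpleGraph.mem_edgeSet]
  simp only [HF, SimpleGraph.comap_adj, Equiv.symm_apply_apply]
  exact ⟨by intro h; exact absurd (congrArg Sigma.fst h) (by change (4 : Fin 14) ≠ 7; decide),
    by change R 4 7; decide⟩

end Pool.Agent.MP_cc6207_co
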