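import Pool.Agent.Lib.MP_cc6207_co.Free
import Pool.Agent.Lib.MP_cc6207_co.Count

set_option autoImplicit false

open Finset

namespace Pool.Agent.MP_cc6207_co

/-- K16 joined to disjoint cliques of size 100 (the last one may be smaller). -/
def G0 (n : ℕ) : SimpleGraph (Fin n) where
  Adj i j := i ≠ j ∧ (i.val < 16 ∨ j.val < 16 ∨ (i.val - 16) / 100 = (j.val - 16) / 100)
  symm := ⟨fun i j h => ⟨h.1.symm, by
    rcases h.2 with h | h | h
    · exact Or.inr (Or.inl h)
    · exact Or.inl h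
    · exact Or.inr (Or.inr h.symm)⟩⟩
  loopless := ⟨fun _ h => h.1 rfl⟩

/-- hubs -/
def T0 (n : ℕ) : Finset (Fin n) := univ.filter (fun i => i.val < 16)
/-- blocks -/
def Bk (n k : ℕ) : Finset (Fin n) := univ.filter (fun i => 16 ≤ i.val ∧ (i.val - 16) / 100 = k)
/-- the last incomplete block -/
def Jk (n : ℕ) : Finset (Fin n) := univ.filter (fun i => 16 ≤ i.val ∧ n < 16 + 100 * ((i.val - 16) / 100 + 1))

lemma T0_card (n : ℕ) (h : 16 ≤ n) : (T0 n).card = 16 := by
  unfold T0
  have : (univ.filter (fun i : Fin n => i.val < 16)) = (univ : Finset (Fin 16)).map (Fin.castLEEmb h) := by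
    ext i
    simp only [mem_filter, mem_univ, true_and, mem_map]
    constructor
    · intro hi
      exact ⟨⟨i.val, hi⟩, by ext; simp⟩
    · rintro ⟨a, ha⟩
      rw [← ha]; simp
  rw [this, card_map, card_univ, Fintype.card_fin]

lemma Bk_card_le (n k : ℕ) : (Bk n k).card ≤ 100 := by
  have : (Bk n k).image (fun i => i.val) ⊆ Finset.Ico (16 + 100 * k) (16 + 100 * k + 100) := by
    intro x hx
    simp only [Bk, mem_image, mem_filter, mem_univ, true_and] at hx
    obtain ⟨i, ⟨h1, h2⟩, rfl⟩ := hx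
    rw [Finset.mem_Ico]; omega
  have h := card_le_card this
  rw [card_image_of_injective _ Fin.val_injective, Nat.card_Ico] at h
  omega

lemma Bk_card (n k : ℕ) (h : 16 + 100 * (k + 1) ≤ n) : (Bk n k).card = 100 := by
  have : (Bk n k).image (fun i => i.val) = Finset.Ico (16 + 100 * k) (16 + 100 * k + 100) := by
    ext x
    simp only [Bk, mem_image, mem_filter, mem_univ, true_and, Finset.mem_Ico]
    constructor
    · rintro ⟨i, ⟨h1, h2⟩, rfl⟩
      omega
    · intro hx
      exact ⟨⟨x, by omega⟩, ⟨by simp only; omega, by simp only; omega⟩, rfl⟩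
  have h2 := congrArg Finset.card this
  rw [card_image_of_injective _ Fin.val_injective, Nat.card_Ico] at h2
  omega

lemma G0_free (n : ℕ) (h : 16 ≤ n) : ¬ Copy (G0 n) := by
  refine not_copy (G0 n) (T0 n) (T0_card n h).le (fun i => (i.val - 16) / 100) ?_ ?_
  · intro u v hu hv huv
    simp only [T0, mem_filter, mem_univ, true_and] at hu hv
    rcases huv.2 with h | h | h
    · exact absurd h hu
    · exact absurd h hv
    · exact h
  · intro k
    refine (card_le_card ?_).trans (Bk_card_le n k)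
    intro i hi
    simp only [T0, Bk, mem_filter, mem_univ, true_and] at hi ⊢
    exact ⟨by omega, hi.2⟩

lemma exists_sat (n : ℕ) (h : 16 ≤ n) : ∃ G : SimpleGraph (Fin n), G0 n ≤ G ∧ Sat G := by
  classical
  have hfin : ({G : SimpleGraph (Fin n) | G0 n ≤ G ∧ ¬ Copy G}).Finite := Set.toFinite _
  obtain ⟨G, hG⟩ := hfin.exists_maximal ⟨G0 n, le_refl _, G0_free n h⟩
  refine ⟨G, hG.1.1, hG.1.2, ?_⟩
  intro u v huv hn
  have hadj : ∀ a b, (G ⊔ SimpleGraph.fromEdgeSet {s(u, v)}).Adj a b ↔
      (G.Adj a b ∨ ((a = u ∧ b = v) ∨ (a = v ∧ b = u)) ∧ a ≠ b) := by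
    intro a b
    simp [SimpleGraph.sup_adj, SimpleGraph.fromEdgeSet_adj]
  have hc : Copy (G ⊔ SimpleGraph.fromEdgeSet {s(u, v)}) := by
    by_contra hc
    have h1 := hG.2 (y := G ⊔ SimpleGraph.fromEdgeSet {s(u, v)}) ⟨hG.1.1.trans le_sup_left, hc⟩ le_sup_left
    have h2 : (G ⊔ SimpleGraph.fromEdgeSet {s(u, v)}).Adj u v := by
      rw [hadj]; exact Or.inr ⟨Or.inl ⟨rfl, rfl⟩, huv⟩
    exact hn (h1 h2)
  obtain ⟨f, hf, hfa⟩ := hc
  refine ⟨f, hf, fun a b hab => ?_⟩
  have := hfa a b hab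
  rw [hadj] at this
  rcases this with h | h
  · exact Or.inl h
  · exact Or.inr h.1

lemma pads_exist (k l : ℕ) : ∃ p : Fin 4 → ℕ, (∀ i j, i ≠ j → p i ≠ p j) ∧
    ∀ i, p i < 6 ∧ p i ≠ k ∧ p i ≠ l := by
  have h1 : 4 ≤ (((Finset.range 6).erase k).erase l).card := by
    have e1 := Finset.pred_card_le_card_erase (s := Finset.range 6) (a := k)
    have e2 := Finset.pred_card_le_card_erase (s := (Finset.range 6).erase k) (a := l)
    rw [Finset.card_range] at e1
    omega
  obtain ⟨S, hS, hSc⟩ := Finset.exists_subset_card_eq h1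
  refine ⟨fun i => S.orderEmbOfFin hSc i, ?_, ?_⟩
  · intro i j hij h
    exact hij ((S.orderEmbOfFin hSc).injective h)
  · intro i
    have := hS (Finset.orderEmbOfFin_mem S hSc i)
    simp only [Finset.mem_erase, Finset.mem_range] at this
    exact ⟨this.2.2, this.2.1, this.1⟩

section
variable {n : ℕ} (G : SimpleGraph (Fin n)) (hG : G0 n ≤ G)
include hG

lemma T0_univ : ∀ t ∈ T0 n, ∀ v, v ≠ t → G.Adj t v := by
  intro t ht v hv
  simp only [T0, mem_filter, mem_univ, true_and] at ht
  exact hG ⟨hv.symm, Or.inl ht⟩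

lemma Bk_cl (k : ℕ) : Cl G (Bk n k) := by
  intro x hx y hy hxy
  simp only [Bk, mem_filter, mem_univ, true_and] at hx hy
  exact hG ⟨hxy, Or.inr (Or.inr (by omega))⟩

omit hG in
lemma T0_Bk (k : ℕ) : Disjoint (T0 n) (Bk n k) := by
  rw [Finset.disjoint_left]
  intro x hx hy
  simp only [T0, Bk, mem_filter, mem_univ, true_and] at hx hy
  omega

omit hG in
lemma Bk_Bk {k l : ℕ} (h : k ≠ l) : Disjoint (Bk n k) (Bk n l) := by
  rw [Finset.disjoint_left]
  intro x hx hy
  simp only [Bk, mem_filter, mem_univ, true_and] at hx hy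
  omega

lemma no_cross (hc : ¬ Copy G) (hn : 616 ≤ n) (k l : ℕ) (hkl : k ≠ l)
    (hk : 16 + 100 * (k + 1) ≤ n) (hl : 16 + 100 * (l + 1) ≤ n) (i j : Fin n) (hi : i ∈ Bk n k)
    (hj : j ∈ Bk n l) : ¬ G.Adj i j := by
  intro hij
  obtain ⟨p, hp1, hp2⟩ := pads_exist k l
  apply hc
  exact kill0 G (T0 n) (Bk n k) (Bk n l) (fun i => Bk n (p i)) (T0_card n (by omega)) (T0_univ G hG)
    (Bk_card n k hk) (Bk_cl G hG k) (Bk_card n l hl) (Bk_cl G hG l)
    (fun i => Bk_card n _ (by have := (hp2 i).1; omega)) (fun i => Bk_cl G hG _) (T0_Bk k) (T0_Bk l)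
    (fun i => T0_Bk _) (fun i => Bk_Bk (hp2 i).2.1.symm) (fun i => Bk_Bk (hp2 i).2.2.symm)
    (fun i j hij => Bk_Bk (hp1 i j hij)) i j hi hj hij (Bk_Bk hkl)

end

lemma Jk_card (n : ℕ) (h : 16 ≤ n) : (Jk n).card ≤ (n - 16) % 100 := by
  have : (Jk n).image (fun i => i.val) ⊆ Finset.Ico (16 + 100 * ((n - 16) / 100)) n := by
    intro x hx
    simp only [Jk, mem_image, mem_filter, mem_univ, true_and] at hx
    obtain ⟨i, ⟨h1, h2⟩, rfl⟩ := hx
    have := i.2
    rw [Finset.mem_Ico]; omega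
  have h := card_le_card this
  rw [card_image_of_injective _ Fin.val_injective, Nat.card_Ico] at h
  omega

lemma deg_sum {n : ℕ} (G : SimpleGraph (Fin n)) [DecidableRel G.Adj] (hG : G0 n ≤ G) (hc : ¬ Copy G)
    (hn : 616 ≤ n) : ∑ u, (nb G u).card ≤ (131 + 2 * ((n - 16) % 100)) * n := by
  have hJ := Jk_card n (by omega)
  set J := Jk n with hJdef
  set r := (n - 16) % 100 with hr
  have hall : ∀ u, (nb G u).card ≤ n := by
    intro u
    have := card_le_card (subset_univ (nb G u))
    simpa using this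
  have hfull : ∀ u, u ∉ T0 n → u ∉ J → (nb G u).card ≤ 115 + r := by
    intro u hu hJu
    have h1 : nb G u ⊆ (T0 n) ∪ ((Bk n ((u.val - 16) / 100)).erase u) ∪ J := by
      intro v hv
      rw [mem_nb] at hv
      have hvu : v ≠ u := hv.ne'
      simp only [mem_union, mem_erase]
      by_contra hcon
      push Not at hcon
      obtain ⟨⟨c1, c2⟩, c3⟩ := hcon
      have hvB : v ∉ Bk n ((u.val - 16) / 100) := fun h => (c2 hvu) h
      simp only [T0, Bk, Jk, mem_filter, mem_univ, true_and, hJdef] at hu hJu c1 c3 hvB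
      have hu16 : 16 ≤ u.val := by omega
      have hv16 : 16 ≤ v.val := by omega
      have e1 : (u.val - 16) / 100 ≠ (v.val - 16) / 100 := by
        intro h; exact hvB ⟨hv16, h.symm⟩
      have e2 : ¬ (n < 16 + 100 * ((u.val - 16) / 100 + 1)) := fun h => hJu ⟨hu16, h⟩
      have e3 : ¬ (n < 16 + 100 * ((v.val - 16) / 100 + 1)) := fun h => c3 ⟨hv16, h⟩
      exact no_cross G hG hc hn _ _ e1 (by omega) (by omega) u v
        (by simp only [Bk, mem_filter, mem_univ, true_and]; exact ⟨hu16, trivial⟩)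
        (by simp only [Bk, mem_filter, mem_univ, true_and]; exact ⟨hv16, trivial⟩) hv
    have h2 := card_le_card h1
    have h3 := card_union_le ((T0 n) ∪ ((Bk n ((u.val - 16) / 100)).erase u)) J
    have h4 := card_union_le (T0 n) ((Bk n ((u.val - 16) / 100)).erase u)
    have h5 : ((Bk n ((u.val - 16) / 100)).erase u).card ≤ 99 := by
      have hm : u ∈ Bk n ((u.val - 16) / 100) := by
        simp only [T0, mem_filter, mem_univ, true_and] at hu
        simp only [Bk, mem_filter, mem_univ, true_and]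
        exact ⟨by omega, trivial⟩
      rw [card_erase_of_mem hm]
      have := Bk_card_le n ((u.val - 16) / 100)
      omega
    have h6 := T0_card n (by omega)
    omega
  have hsplit : ∑ u, (nb G u).card ≤ ∑ u : Fin n, ((if u ∈ T0 n then n else 0) + (if u ∈ J then n else 0) + (115 + r)) := by
    apply Finset.sum_le_sum
    intro u _
    by_cases h1 : u ∈ T0 n
    · have := hall u
      simp only [h1, if_true]; omega
    · by_cases h2 : u ∈ J
      · have := hall u
        simp only [h2, if_true]; omega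
      · have := hfull u h1 h2
        omega
  refine hsplit.trans ?_
  rw [Finset.sum_add_distrib, Finset.sum_add_distrib, Finset.sum_const, ← Finset.sum_filter, ← Finset.sum_filter,
    Finset.sum_const, Finset.sum_const]
  simp only [smul_eq_mul, card_univ, Fintype.card_fin, filter_univ_mem]
  rw [T0_card n (by omega)]
  have : J.card * n ≤ r * n := Nat.mul_le_mul_right _ hJ
  nlinarith

end Pool.Agent.MP_cc6207_co
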